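import Mathlib
import Pool.Agent.LGO.F.AsNum

/-!
# LGO/SM: a number all of whose divisors are small or cosmall is nearly a prime
-/

namespace Pool.Agent.LGO.SM

theorem exists_big_prime {N : ℕ} {B : ℝ} (hB : 1 ≤ B) (hN : B * B < N)
    (h : ∀ d : ℕ, d ∣ N → (d : ℝ) ≤ B ∨ (N : ℝ) ≤ B * d) :
    ∃ p : ℕ, p.Prime ∧ p ∣ N ∧ (N : ℝ) ≤ B * B * p := by
  classical
  have hB0 : 0 < B := by linarith
  have hN0 : 0 < N := by
    have : (0 : ℝ) < N := lt_trans (by positivity) hN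
    exact_mod_cast this
  have hne : (N.divisors.filter fun d : ℕ => (d : ℝ) ≤ B).Nonempty :=
    ⟨1, by simp [hN0.ne', hB]⟩
  obtain ⟨d, hd, hmax⟩ := Finset.exists_max_image _ (fun d : ℕ => d) hne
  rw [Finset.mem_filter, Nat.mem_divisors] at hd
  obtain ⟨⟨⟨r, hr⟩, -⟩, hdB⟩ := hd
  have hd0 : 0 < d := by
    rcases Nat.eq_zero_or_pos d with h0 | h0
    · rw [h0, zero_mul] at hr
      omega
    · exact h0
  have hr1 : r ≠ 1 := by
    rintro rfl
    rw [mul_one] at hr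
    have h1 : (N : ℝ) ≤ B := by rw [hr]; exact hdB
    nlinarith
  refine ⟨r.minFac, Nat.minFac_prime hr1, (Nat.minFac_dvd r).trans ⟨d, by rw [hr, mul_comm]⟩, ?_⟩
  have hpr := Nat.minFac_prime hr1
  have hdp : d * r.minFac ∣ N := by
    rw [hr]
    exact Nat.mul_dvd_mul_left d (Nat.minFac_dvd r)
  have hlt : d < d * r.minFac := by
    have := hpr.two_le
    nlinarith
  rcases h _ hdp with h1 | h1
  · have h2 : d * r.minFac ∈ N.divisors.filter fun d : ℕ => (d : ℝ) ≤ B := by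
      rw [Finset.mem_filter, Nat.mem_divisors]
      exact ⟨⟨hdp, hN0.ne'⟩, h1⟩
    have := hmax _ h2
    omega
  · push_cast at h1
    have hp0 : (0 : ℝ) ≤ r.minFac := Nat.cast_nonneg _
    calc (N : ℝ) ≤ B * (d * r.minFac) := h1
      _ ≤ B * (B * r.minFac) := by gcongr
      _ = B * B * r.minFac := by ring

/-- the leg common to the two short pairs is small -/
theorem small_leg {x y z M L : ℝ} (hx : 1 ≤ x) (hy : 1 ≤ y) (hz : 1 ≤ z) (hM : 2 ≤ M)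
    (h : x * y * z ≤ M * L ^ 2) (hL : 0 < L) (hyz : L ^ 2 / M ^ 2 ≤ y * z) : x ≤ M ^ 3 := by
  have hM0 : 0 < M := by linarith
  rw [div_le_iff₀ (by positivity)] at hyz
  have h1 : x * L ^ 2 ≤ M ^ 3 * L ^ 2 := by
    calc x * L ^ 2 ≤ x * (y * z * M ^ 2) := by gcongr
      _ = x * y * z * M ^ 2 := by ring
      _ ≤ M * L ^ 2 * M ^ 2 := by gcongr
      _ = M ^ 3 * L ^ 2 := by ring
  exact le_of_mul_le_mul_right h1 (by positivity)

/-- a short pair without middle divisors is nearly a prime -/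
theorem short_prime {N : ℕ} {M L : ℝ} (hM : 2 ≤ M) (hL : M ^ 20 < L) (h1 : L / M ≤ N)
    (h2 : (N : ℝ) ≤ M ^ 5 * L) (h : ∀ d : ℕ, d ∣ N → L ≤ M * d ∨ L * d ≤ M * N) :
    ∃ p : ℕ, p.Prime ∧ p ∣ N ∧ (N : ℝ) ≤ M ^ 12 * p ∧ L ≤ M ^ 13 * p ∧ (p : ℝ) ≤ M ^ 5 * L := by
  have hM0 : 0 < M := by linarith
  have hM1 : 1 ≤ M := by linarith
  have hL0 : 0 < L := lt_trans (by positivity) hL
  rw [div_le_iff₀ hM0] at h1
  have hpos : ∀ k, 0 < M ^ k := fun k => by positivity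
  have hmono : ∀ {k l : ℕ}, k ≤ l → M ^ k ≤ M ^ l := fun h => pow_le_pow_right₀ hM1 h
  obtain ⟨p, hp, hpN, hpB⟩ := exists_big_prime (N := N) (B := M ^ 6) (one_le_pow₀ hM1) (by
    by_contra hcon
    rw [not_lt] at hcon
    have h3 : L ≤ M ^ 13 := by
      calc L ≤ N * M := h1
        _ ≤ (M ^ 6 * M ^ 6) * M := by gcongr
        _ = M ^ 13 := by ring
    have := hmono (show 13 ≤ 20 by norm_num)
    linarith) (fun d hd => by
    have hd0 : (0 : ℝ) ≤ d := Nat.cast_nonneg _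
    rcases h d hd with h3 | h3
    · right
      calc (N : ℝ) ≤ M ^ 5 * L := h2
        _ ≤ M ^ 5 * (M * d) := by gcongr
        _ = M ^ 6 * d := by ring
    · left
      have h4 : L * d ≤ L * M ^ 6 := by
        calc L * d ≤ M * N := h3
          _ ≤ M * (M ^ 5 * L) := by gcongr
          _ = L * M ^ 6 := by ring
      exact le_of_mul_le_mul_left h4 hL0)
  have hN0 : 0 < N := by
    rcases Nat.eq_zero_or_pos N with h0 | h0
    · rw [h0, Nat.cast_zero, zero_mul] at h1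
      linarith
    · exact h0
  have hpB' : (N : ℝ) ≤ M ^ 12 * p := by
    calc (N : ℝ) ≤ M ^ 6 * M ^ 6 * p := hpB
      _ = M ^ 12 * p := by ring
  refine ⟨p, hp, hpN, hpB', ?_, ?_⟩
  · calc L ≤ N * M := h1
      _ ≤ (M ^ 12 * p) * M := by gcongr
      _ = M ^ 13 * p := by ring
  · refine le_trans ?_ h2
    exact_mod_cast Nat.le_of_dvd hN0 hpN

/-- two short pairs and one long pair -/
theorem num_struct {x y z : ℕ} {M L : ℝ} (hx : 0 < x) (hy : 0 < y) (hz : 0 < z) (hM : 2 ≤ M)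
    (hL : M ^ 20 < L) (h : (x : ℝ) * y * z ≤ M * L ^ 2) (hyz : L ^ 2 / M ^ 2 ≤ (y : ℝ) * z)
    (hxy : L / M ≤ (x : ℝ) * y) (hxz : L / M ≤ (x : ℝ) * z)
    (mxy : ∀ d : ℕ, d ∣ x * y → L ≤ M * d ∨ L * d ≤ M * (x * y : ℕ))
    (mxz : ∀ d : ℕ, d ∣ x * z → L ≤ M * d ∨ L * d ≤ M * (x * z : ℕ)) :
    ∃ p q : ℕ, p.Prime ∧ q.Prime ∧ p ∣ x * y ∧ q ∣ x * z ∧ p * q ∣ y * z ∧
      ((x * y : ℕ) : ℝ) ≤ M ^ 24 * p ∧ ((x * z : ℕ) : ℝ) ≤ M ^ 24 * q ∧
      ((y * z : ℕ) : ℝ) ≤ M ^ 24 * (p * q) ∧ L ≤ M ^ 24 * p ∧ (p : ℝ) ≤ M ^ 24 * L ∧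
      L ≤ M ^ 24 * q ∧ (q : ℝ) ≤ M ^ 24 * L := by
  have hM0 : 0 < M := by linarith
  have hM1 : 1 ≤ M := by linarith
  have hL0 : 0 < L := lt_trans (by positivity) hL
  have hmono : ∀ {k l : ℕ}, k ≤ l → M ^ k ≤ M ^ l := fun h => pow_le_pow_right₀ hM1 h
  have hx1 : (1 : ℝ) ≤ x := by exact_mod_cast hx
  have hy1 : (1 : ℝ) ≤ y := by exact_mod_cast hy
  have hz1 : (1 : ℝ) ≤ z := by exact_mod_cast hz
  have hL10 : M ^ 10 < L := lt_of_le_of_lt (hmono (by norm_num)) hL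
  have h3 := small_leg hx1 hy1 hz1 hM h hL0 hyz
  obtain ⟨h4, h5⟩ := F.as_num_two hy1 hz1 hx1 hM hL10
    (by
      have : (y : ℝ) * z * x = x * y * z := by ring
      linarith) hyz (by rw [mul_comm]; exact hxy) (by rw [mul_comm]; exact hxz)
  obtain ⟨p, hp, hpd, hp1, hp2, hp3⟩ := short_prime (N := x * y) hM hL (by push_cast; exact hxy)
    (by push_cast; rw [mul_comm (x : ℝ)]; exact h4) mxy
  obtain ⟨q, hq, hqd, hq1, hq2, hq3⟩ := short_prime (N := x * z) hM hL (by push_cast; exact hxz)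
    (by push_cast; rw [mul_comm (x : ℝ)]; exact h5) mxz
  have key : ∀ r : ℕ, r.Prime → L ≤ M ^ 13 * r → ¬ r ∣ x := by
    intro r hr hr2 hrx
    have h6 : (r : ℝ) ≤ x := by exact_mod_cast Nat.le_of_dvd hx hrx
    have h7 : L ≤ M ^ 16 := by
      calc L ≤ M ^ 13 * r := hr2
        _ ≤ M ^ 13 * M ^ 3 := by gcongr; exact h6.trans h3
        _ = M ^ 16 := by ring
    have := hmono (show 16 ≤ 20 by norm_num)
    linarith
  have hpy : p ∣ y := (hp.dvd_mul.mp hpd).resolve_left (key p hp hp2)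
  have hqz : q ∣ z := (hq.dvd_mul.mp hqd).resolve_left (key q hq hq2)
  have hp0 : (0 : ℝ) ≤ p := Nat.cast_nonneg _
  have hq0 : (0 : ℝ) ≤ q := Nat.cast_nonneg _
  refine ⟨p, q, hp, hq, hpd, hqd, Nat.mul_dvd_mul hpy hqz, ?_, ?_, ?_, ?_, ?_, ?_, ?_⟩
  · refine hp1.trans ?_
    have := hmono (show 12 ≤ 24 by norm_num)
    gcongr
  · refine hq1.trans ?_
    have := hmono (show 12 ≤ 24 by norm_num)
    gcongr
  · push_cast at hp1 hq1 ⊢
    calc (y : ℝ) * z = 1 * y * (1 * z) := by ring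
      _ ≤ (x * y) * (x * z) := by gcongr
      _ ≤ (M ^ 12 * p) * (M ^ 12 * q) := by gcongr
      _ = M ^ 24 * (p * q) := by ring
  · refine hp2.trans ?_
    have := hmono (show 13 ≤ 24 by norm_num)
    gcongr
  · refine hp3.trans ?_
    have := hmono (show 5 ≤ 24 by norm_num)
    gcongr
  · refine hq2.trans ?_
    have := hmono (show 13 ≤ 24 by norm_num)
    gcongr
  · refine hq3.trans ?_
    have := hmono (show 5 ≤ 24 by norm_num)
    gcongr

end Pool.Agent.LGO.SM
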