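import Mathlib
import Pool.Agent.LGO.F.AsCore
import Pool.Agent.LGO.SM.Num

/-!
# LGO/SM: the structure of the isogenous triples of large height (note 3188)

The first part is the proof of `F.as_core` for three coordinates.  Exactly one of the three pairs is long; the two others
have no common pole, so `F.as_mid` applies to them.
-/

namespace Pool.Agent.LGO.SM

open UpperHalfPlane Filter Topology Pool.Agent.Hhelper14.ZP Pool.Agent.Hhelper14.ZPL Pool.Agent.LGO.F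

variable {n m : ℕ} {V : Set (Fin n → ℂ)}

/-- the structure of an exceptional triple: the pairs `a, b` and `a, c` are short and nearly primes -/
def Struct (B L : ℝ) (i : Fin 3 → Fin n) (x : Fin n → ℂ) : Prop :=
  ∃ (a b c : Fin 3) (p q : ℕ), a ≠ b ∧ a ≠ c ∧ b ≠ c ∧ p.Prime ∧ q.Prime ∧
    p ∣ mdeg (x (i a)) (x (i b)) ∧ q ∣ mdeg (x (i a)) (x (i c)) ∧
    p * q ∣ mdeg (x (i b)) (x (i c)) ∧
    (mdeg (x (i a)) (x (i b)) : ℝ) ≤ B * p ∧ (mdeg (x (i a)) (x (i c)) : ℝ) ≤ B * q ∧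
    (mdeg (x (i b)) (x (i c)) : ℝ) ≤ B * (p * q) ∧
    L ≤ B * p ∧ (p : ℝ) ≤ B * L ∧ L ≤ B * q ∧ (q : ℝ) ≤ B * L

/-- the data of a pair of coordinates -/
private def SM_pair (V : Set (Fin n → ℂ)) (a b : Fin n) (C : ℕ) (E : Set (Fin n → ℂ)) : Prop :=
  ((∀ x ∈ V, ∀ s : ℂ ≃+* ℂ, ‖s (x a)‖ ≤ C ∨ ‖s (x b)‖ ≤ C) ∨
    ∀ c : Fin n, ∀ x ∈ V, x ∉ E →
      ∀ (K : IntermediateField ℚ ℂ) [FiniteDimensional ℚ K], x c ∈ K → x a ∈ K → x b ∈ K →
        IsIntegral ℤ (x c) → IsIntegral ℤ (x a) → IsIntegral ℤ (x b) →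
        ∀ (s' : ℂ ≃+* ℂ) (T : ℝ), (C : ℝ) * Module.finrank ℚ K ≤ T →
          Real.exp T ≤ ‖s' (x c)‖ → ∃ s : ℂ ≃+* ℂ,
            T ≤ (C : ℝ) * Module.finrank ℚ K * Real.log ‖s (x a)‖ ∧
            T ≤ (C : ℝ) * Module.finrank ℚ K * Real.log ‖s (x b)‖)

private theorem SM_exists_pair (hV : Pool.Agent.Hhelper14.ZPL.IsIrredClosed V)
    (hVk : KClosed V) (hdim : Pool.Agent.Hhelper14.ZPL.dim V = 1) {a b : Fin n}
    (ha : ∀ c : ℂ, ∃ x ∈ V, x a ≠ c) (hb : ∀ c : ℂ, ∃ x ∈ V, x b ≠ c) :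
    ∃ (C : ℕ) (E : Set (Fin n → ℂ)), E.Finite ∧ SM_pair V a b C E := by
  classical
  rcases pole_dich hV hVk hdim ha hb with ⟨C, h⟩ | h
  · exact ⟨C, ∅, Set.finite_empty, Or.inl h⟩
  · choose C E hC hE h using h
    have hle : ∀ c, C c ≤ ∑ c, C c := fun c => Finset.single_le_sum (fun _ _ => Nat.zero_le _)
      (Finset.mem_univ c)
    refine ⟨∑ c, C c, ⋃ c, E c, Set.finite_iUnion hE, Or.inr ?_⟩
    intro c x hx hxE K _ h1 h2 h3 h4 h5 h6 s' T hT hs
    have hleR : (C c : ℝ) ≤ ((∑ c, C c : ℕ) : ℝ) := by exact_mod_cast hle c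
    have hD : (0 : ℝ) ≤ Module.finrank ℚ K := Nat.cast_nonneg _
    have hD1 : (1 : ℝ) ≤ Module.finrank ℚ K := by
      exact_mod_cast Module.finrank_pos (R := ℚ) (M := K)
    have hC1 : (1 : ℝ) ≤ C c := by exact_mod_cast hC c
    have hT' : (C c : ℝ) * Module.finrank ℚ K ≤ T := by
      refine le_trans ?_ hT
      gcongr
    have hT0 : 0 < T := by nlinarith
    obtain ⟨s, e1, e2⟩ := h c x hx (fun hh => hxE (Set.mem_iUnion.mpr ⟨c, hh⟩)) K h1 h2 h3 h4 h5 h6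
      s' T hT' hs
    have key : ∀ r : ℝ, T ≤ (C c : ℝ) * Module.finrank ℚ K * r →
        T ≤ ((∑ c, C c : ℕ) : ℝ) * Module.finrank ℚ K * r := by
      intro r hr
      have hr0 : 0 < r := by
        by_contra hcon
        rw [not_lt] at hcon
        have : (C c : ℝ) * Module.finrank ℚ K * r ≤ 0 :=
          mul_nonpos_of_nonneg_of_nonpos (by positivity) hcon
        linarith
      refine hr.trans ?_
      gcongr
    exact ⟨s, key _ e1, key _ e2⟩


theorem Struct.mono {B B' L : ℝ} {i : Fin 3 → Fin n} {x : Fin n → ℂ} (h : Struct B L i x)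
    (hB : B ≤ B') (hL : 0 ≤ L) : Struct B' L i x := by
  obtain ⟨a, b, c, p, q, h1, h2, h3, h4, h5, h6, h7, h8, h9, h10, h11, h12, h13, h14, h15⟩ := h
  have hp : (0 : ℝ) ≤ p := Nat.cast_nonneg _
  have hq : (0 : ℝ) ≤ q := Nat.cast_nonneg _
  refine ⟨a, b, c, p, q, h1, h2, h3, h4, h5, h6, h7, h8, ?_, ?_, ?_, ?_, ?_, ?_, ?_⟩
  · exact h9.trans (by gcongr)
  · exact h10.trans (by gcongr)
  · exact h11.trans (by gcongr)
  · exact h12.trans (by gcongr)
  · exact h13.trans (by gcongr)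
  · exact h14.trans (by gcongr)
  · exact h15.trans (by gcongr)

theorem sm_core (hS : SharpAll) (hV : Pool.Agent.Hhelper14.ZPL.IsIrredClosed V)
    (hVk : KClosed V) (hdim : Pool.Agent.Hhelper14.ZPL.dim V = 1) (i : Fin 3 → Fin n)
    (hi : Function.Injective i) (hconst : ∀ a, ∀ c : ℂ, ∃ x ∈ V, x (i a) ≠ c)
    (hmod : ∀ a b, a ≠ b → ∀ g : GL (Fin 2) ℚ, 0 < g.det.val →
      ∃ x ∈ V, ¬ ∃ τ : ℍ, x (i a) = jInv τ ∧ x (i b) = jInv (gact g τ)) :
    ∃ (C : ℕ) (E : Set (Fin n → ℂ)), 1 ≤ C ∧ E.Finite ∧ ∀ x ∈ V, x ∉ E → (∀ a, NCM (x (i a))) →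
      (∀ a b, ∃ N, 0 < N ∧ IsogDeg N (x (i a)) (x (i b))) → (∀ a, IsIntegral ℤ (x (i a))) →
      ∀ (K : IntermediateField ℚ ℂ) [FiniteDimensional ℚ K], (∀ a, x (i a) ∈ K) → ∀ L : ℝ,
        (∀ a, ∀ s : ℂ ≃+* ℂ, ‖s (x (i a))‖ ≤ Real.exp L) →
        (∃ (a : Fin 3) (s : ℂ ≃+* ℂ), Real.exp L ≤ ‖s (x (i a))‖) →
        L ≤ ((C : ℝ) * Module.finrank ℚ K) ^ C ∨
          Struct (((C : ℝ) * Module.finrank ℚ K) ^ C) L i x := by
  classical
  obtain ⟨c, htri⟩ := as_tri hS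
  obtain ⟨Cp, hCp, hplace⟩ := as_place
  obtain ⟨Cp', hCp'⟩ := exists_nat_ge Cp
  choose C₁ E₁ hC₁ hE₁ hone using fun a b : Fin 3 => pole_one hV hVk hdim (hconst a) (i b)
  choose C₂ E₂ hE₂ hpair using fun a b : Fin 3 =>
    SM_exists_pair hV hVk hdim (hconst a) (hconst b)
  have hbig0 : ∀ a b : Fin 3, ∃ (C : ℕ) (E : Set (Fin n → ℂ)), 1 ≤ C ∧ E.Finite ∧ (a ≠ b →
      ∀ x ∈ V, x ∉ E → (∃ N, 0 < N ∧ IsogDeg N (x (i a)) (x (i b))) → ∀ s : ℂ ≃+* ℂ,
        (C : ℝ) ≤ Real.log ‖s (x (i a))‖ → (C : ℝ) ≤ Real.log ‖s (x (i b))‖ →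
        Real.log ‖s (x (i a))‖ * Real.log ‖s (x (i b))‖ ≤ (C : ℝ) * mdeg (x (i a)) (x (i b))) := by
    intro a b
    by_cases hab : a = b
    · exact ⟨1, ∅, le_rfl, Set.finite_empty, fun h => absurd hab h⟩
    · obtain ⟨C, E, h1, h2, h3⟩ := big_pair hV hVk hdim (hi.ne hab) (hconst a) (hconst b)
        (hmod a b hab)
      exact ⟨C, E, h1, h2, fun _ => h3⟩
  choose C₃ E₃ hC₃ hE₃ hbig using hbig0
  obtain ⟨cm, hmid⟩ := as_mid
  -- one constant
  set C₀ : ℕ := 3 + Cp' + ∑ a, ∑ b, (C₁ a b + C₂ a b + C₃ a b) with hC₀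
  have hsum : ∀ a b, C₁ a b + C₂ a b + C₃ a b ≤ ∑ a, ∑ b, (C₁ a b + C₂ a b + C₃ a b) := by
    intro a b
    refine (Finset.single_le_sum (f := fun b => C₁ a b + C₂ a b + C₃ a b)
      (fun _ _ => Nat.zero_le _) (Finset.mem_univ b)).trans ?_
    exact Finset.single_le_sum (f := fun a => ∑ b, (C₁ a b + C₂ a b + C₃ a b))
      (fun _ _ => Nat.zero_le _) (Finset.mem_univ a)
  have hl1 : ∀ a b, (C₁ a b : ℝ) ≤ C₀ := fun a b => by
    have := hsum a b
    exact_mod_cast (by omega : C₁ a b ≤ C₀)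
  have hl2 : ∀ a b, (C₂ a b : ℝ) ≤ C₀ := fun a b => by
    have := hsum a b
    exact_mod_cast (by omega : C₂ a b ≤ C₀)
  have hl3 : ∀ a b, (C₃ a b : ℝ) ≤ C₀ := fun a b => by
    have := hsum a b
    exact_mod_cast (by omega : C₃ a b ≤ C₀)
  have hlp : Cp ≤ C₀ := hCp'.trans (by exact_mod_cast (by omega : Cp' ≤ C₀))
  have h3C₀ : (3 : ℝ) ≤ C₀ := by exact_mod_cast (by omega : 3 ≤ C₀)
  have hC₀pos : 0 < C₀ := by omega
  have h2C₀ : (2 : ℝ) ≤ C₀ := by linarith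
  set e : ℕ := c + cm + 3 with he
  set X : ℕ := 24 * e + 20 with hX
  refine ⟨C₀ + X, ⋃ a, ⋃ b, (E₁ a b ∪ E₂ a b ∪ E₃ a b), by omega, ?_, ?_⟩
  · exact Set.finite_iUnion fun a => Set.finite_iUnion fun b =>
      ((hE₁ a b).union (hE₂ a b)).union (hE₃ a b)
  intro x hx hxE hN hI hint K _ hK L hsL hsmain
  have hxE' : ∀ a b, x ∉ E₁ a b ∧ x ∉ E₂ a b ∧ x ∉ E₃ a b := by
    intro a b
    have h : ∀ S : Set (Fin n → ℂ), S ⊆ E₁ a b ∪ E₂ a b ∪ E₃ a b → x ∉ S := by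
      intro S hS hxS
      exact hxE (Set.mem_iUnion.mpr ⟨a, Set.mem_iUnion.mpr ⟨b, hS hxS⟩⟩)
    exact ⟨h _ fun y hy => Or.inl (Or.inl hy), h _ fun y hy => Or.inl (Or.inr hy),
      h _ fun y hy => Or.inr hy⟩
  by_contra hcon
  rw [not_or, not_le] at hcon
  obtain ⟨hcon, hconS⟩ := hcon
  have hD1 : (1 : ℝ) ≤ Module.finrank ℚ K := by
    exact_mod_cast Module.finrank_pos (R := ℚ) (M := K)
  set D : ℝ := (Module.finrank ℚ K : ℝ) with hDdef
  set M : ℝ := C₀ * D with hM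
  have hM2 : 2 ≤ M := by nlinarith
  have hM0 : 0 < M := by linarith
  have hM1 : 1 ≤ M := by linarith
  have hDM : D ≤ M := by nlinarith
  have hCM : (C₀ : ℝ) ≤ M := by nlinarith
  -- the final bound
  have hMX : M ^ X ≤ (((C₀ + X : ℕ) : ℝ) * D) ^ (C₀ + X) := by
    have h1 : M ≤ ((C₀ + X : ℕ) : ℝ) * D := by
      rw [hM]
      have : (C₀ : ℝ) ≤ ((C₀ + X : ℕ) : ℝ) := by exact_mod_cast Nat.le_add_right _ _
      gcongr
    calc M ^ X ≤ (((C₀ + X : ℕ) : ℝ) * D) ^ X := by gcongr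
      _ ≤ (((C₀ + X : ℕ) : ℝ) * D) ^ (C₀ + X) :=
        pow_le_pow_right₀ (hM1.trans h1) (by omega)
  -- `L` is large
  have hLX : M ^ X < L := lt_of_le_of_lt hMX hcon
  have hLpow : ∀ k, k ≤ X → M ^ k < L := fun k hk => (as_mono hM2 hk).trans_lt hLX
  have hL20 : (M ^ e) ^ 20 < L := by
    rw [← pow_mul]
    exact hLpow _ (by omega)
  have hL10 : (M ^ e) ^ 10 < L := by
    rw [← pow_mul]
    exact hLpow _ (by omega)
  have hLM : M ^ 2 ≤ L := (hLpow 2 (by omega)).le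
  have hL0 : 0 < L := lt_of_lt_of_le (by positivity) hLM
  have hM_L : M ≤ L := by nlinarith
  obtain ⟨a₀, s₀, hs₀⟩ := hsmain
  -- main places
  have hmain : ∀ a, ∃ s : ℂ ≃+* ℂ, L ≤ M * Real.log ‖s (x (i a))‖ := by
    intro a
    have hT : (C₁ a a₀ : ℝ) * D ≤ L := by
      refine le_trans ?_ hM_L
      rw [hM]
      have := hl1 a a₀
      gcongr
    obtain ⟨s, hs⟩ := hone a a₀ x hx (hxE' a a₀).1 K (hK a₀) (hK a) (hint a₀) (hint a) s₀ L hT hs₀
    refine ⟨s, ?_⟩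
    have hr0 : 0 < Real.log ‖s (x (i a))‖ := by
      by_contra h
      rw [not_lt] at h
      have : (C₁ a a₀ : ℝ) * D * Real.log ‖s (x (i a))‖ ≤ 0 :=
        mul_nonpos_of_nonneg_of_nonpos (by positivity) h
      linarith
    refine hs.trans ?_
    rw [hM]
    have := hl1 a a₀
    gcongr
  -- the large case of a pair
  have hprod : ∀ a b, a ≠ b → ∀ s : ℂ ≃+* ℂ, M ≤ Real.log ‖s (x (i a))‖ →
      M ≤ Real.log ‖s (x (i b))‖ →
      Real.log ‖s (x (i a))‖ * Real.log ‖s (x (i b))‖ ≤ M * mdeg (x (i a)) (x (i b)) := by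
    intro a b hab s h1 h2
    have h3 := hbig a b hab x hx (hxE' a b).2.2 (hI a b) s (((hl3 a b).trans hCM).trans h1)
      (((hl3 a b).trans hCM).trans h2)
    refine h3.trans ?_
    have := (hl3 a b).trans hCM
    gcongr
  -- lower bounds for the degrees
  have hlow : ∀ a b, a ≠ b → L / M ^ e ≤ mdeg (x (i a)) (x (i b)) := by
    intro a b hab
    obtain ⟨s, hs⟩ := hmain a
    have hN0 : (0 : ℝ) ≤ mdeg (x (i a)) (x (i b)) := Nat.cast_nonneg _
    have hgoal : L ≤ M ^ 3 * mdeg (x (i a)) (x (i b)) := by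
      rcases le_total (Real.log ‖s (x (i b))‖) M with h | h
      · have h1 := hplace (x (i a)) (x (i b)) (hI a b) s
        have h2 : max 1 (Real.log ‖s (x (i b))‖) ≤ M := max_le hM1 h
        calc L ≤ M * Real.log ‖s (x (i a))‖ := hs
          _ ≤ M * (Cp * mdeg (x (i a)) (x (i b)) * max 1 (Real.log ‖s (x (i b))‖)) := by gcongr
          _ ≤ M * (M * mdeg (x (i a)) (x (i b)) * M) := by
              have := hlp.trans hCM
              gcongr
          _ = M ^ 3 * mdeg (x (i a)) (x (i b)) := by ring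
      · have h0 : M ≤ Real.log ‖s (x (i a))‖ := by
          by_contra hc
          rw [not_le] at hc
          have : M * Real.log ‖s (x (i a))‖ < M * M := by gcongr
          nlinarith
        have h1 := hprod a b hab s h0 h
        have h2 : Real.log ‖s (x (i a))‖ ≤ M * mdeg (x (i a)) (x (i b)) := by
          refine le_trans ?_ h1
          have : 1 ≤ Real.log ‖s (x (i b))‖ := hM1.trans h
          nlinarith
        calc L ≤ M * Real.log ‖s (x (i a))‖ := hs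
          _ ≤ M * (M * mdeg (x (i a)) (x (i b))) := by gcongr
          _ = M ^ 2 * mdeg (x (i a)) (x (i b)) := by ring
          _ ≤ M ^ 3 * mdeg (x (i a)) (x (i b)) := by
              have := as_mono hM2 (show 2 ≤ 3 by norm_num)
              gcongr
    rw [div_le_iff₀ (by positivity)]
    calc L ≤ M ^ 3 * mdeg (x (i a)) (x (i b)) := hgoal
      _ ≤ M ^ e * mdeg (x (i a)) (x (i b)) := by
          have := as_mono hM2 (show 3 ≤ e by omega)
          gcongr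
      _ = _ := by ring
  -- common poles
  have hcommon : ∀ a b, a ≠ b →
      ¬ (∀ x ∈ V, ∀ s : ℂ ≃+* ℂ, ‖s (x (i a))‖ ≤ C₂ a b ∨ ‖s (x (i b))‖ ≤ C₂ a b) →
      L ^ 2 / (M ^ e) ^ 2 ≤ mdeg (x (i a)) (x (i b)) := by
    intro a b hab hnot
    have h1 := (hpair a b).resolve_left hnot
    have hT : (C₂ a b : ℝ) * D ≤ L := by
      refine le_trans ?_ hM_L
      rw [hM]
      have := hl2 a b
      gcongr
    obtain ⟨s, h2, h3⟩ := h1 (i a₀) x hx (hxE' a b).2.1 K (hK a₀) (hK a) (hK b) (hint a₀) (hint a)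
      (hint b) s₀ L hT hs₀
    have key : ∀ r : ℝ, L ≤ (C₂ a b : ℝ) * D * r → L ≤ M * r := by
      intro r hr
      have hr0 : 0 < r := by
        by_contra h
        rw [not_lt] at h
        have : (C₂ a b : ℝ) * D * r ≤ 0 := mul_nonpos_of_nonneg_of_nonpos (by positivity) h
        linarith
      refine hr.trans ?_
      rw [hM]
      have := hl2 a b
      gcongr
    have h4 := key _ h2
    have h5 := key _ h3
    have key2 : ∀ r : ℝ, L ≤ M * r → M ≤ r := by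
      intro r hr
      by_contra hc
      rw [not_le] at hc
      have : M * r < M * M := by gcongr
      nlinarith
    have h6 := hprod a b hab s (key2 _ h4) (key2 _ h5)
    have hN0 : (0 : ℝ) ≤ mdeg (x (i a)) (x (i b)) := Nat.cast_nonneg _
    rw [div_le_iff₀ (by positivity)]
    have hr0 : 0 ≤ Real.log ‖s (x (i a))‖ := hM0.le.trans (key2 _ h4)
    calc L ^ 2 = L * L := by ring
      _ ≤ (M * Real.log ‖s (x (i a))‖) * (M * Real.log ‖s (x (i b))‖) := by gcongr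
      _ = M ^ 2 * (Real.log ‖s (x (i a))‖ * Real.log ‖s (x (i b))‖) := by ring
      _ ≤ M ^ 2 * (M * mdeg (x (i a)) (x (i b))) := by gcongr
      _ = mdeg (x (i a)) (x (i b)) * M ^ 3 := by ring
      _ ≤ mdeg (x (i a)) (x (i b)) * (M ^ e) ^ 2 := by
          rw [← pow_mul]
          have := as_mono hM2 (show 3 ≤ e * 2 by omega)
          gcongr
  -- the legs
  obtain ⟨ν, hν, hdeg, hprod3, s, hs⟩ := htri K (fun k => x (i k)) M L hM2 hDM hK hN hint hI hsL
    ⟨0, hmain 0⟩ (hLpow c (by omega)).le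
  have hν1 : ∀ k, (1 : ℝ) ≤ ν k := fun k => by exact_mod_cast hν k
  have hMe : 2 ≤ M ^ e := by
    have := as_mono hM2 (show 1 ≤ e by omega)
    rw [pow_one] at this
    linarith
  have hMe0 : 0 < M ^ e := by linarith
  have hsmall : ∀ (u : Fin 3) (C : ℕ), (C : ℝ) ≤ M → ‖s (x (i u))‖ ≤ C → L / M ^ e ≤ ν u := by
    intro u C hC hle
    have h1 := hs u
    have h2 : Real.log ‖s (x (i u))‖ ≤ M := by
      rcases (norm_nonneg (s (x (i u)))).eq_or_lt with h0 | h0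
      · rw [← h0, Real.log_zero]
        exact hM0.le
      · have := Real.log_le_sub_one_of_pos h0
        linarith
    have h3 : max 1 (Real.log ‖s (x (i u))‖) ≤ M := max_le hM1 h2
    have hν0 : (0 : ℝ) ≤ ν u := Nat.cast_nonneg _
    rw [div_le_iff₀ hMe0]
    calc L ≤ M ^ c * ν u * max 1 (Real.log ‖s (x (i u))‖) := h1
      _ ≤ M ^ c * ν u * M := by gcongr
      _ = ν u * M ^ (c + 1) := by ring
      _ ≤ ν u * M ^ e := by
          have := as_mono hM2 (show c + 1 ≤ e by omega)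
          gcongr
  have hdich : ∀ u v : Fin 3, u ≠ v →
      L / M ^ e ≤ ν u ∨ L / M ^ e ≤ ν v ∨ L ^ 2 / (M ^ e) ^ 2 ≤ (ν u : ℝ) * ν v := by
    intro u v huv
    by_cases halt : ∀ x ∈ V, ∀ s : ℂ ≃+* ℂ, ‖s (x (i u))‖ ≤ C₂ u v ∨ ‖s (x (i v))‖ ≤ C₂ u v
    · rcases halt x hx s with h | h
      · exact Or.inl (hsmall u _ ((hl2 u v).trans hCM) h)
      · exact Or.inr (Or.inl (hsmall v _ ((hl2 u v).trans hCM) h))
    · right; right
      have h1 := hcommon u v huv halt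
      rw [hdeg u v huv, Nat.cast_mul] at h1
      exact h1
  have hp3 : (ν 0 : ℝ) * ν 1 * ν 2 ≤ M ^ e * L ^ 2 := by
    refine hprod3.trans ?_
    have := as_mono hM2 (show c ≤ e by omega)
    gcongr
  have hlow' : ∀ u v : Fin 3, u ≠ v → L / M ^ e ≤ (ν u : ℝ) * ν v := by
    intro u v huv
    have h1 := hlow u v huv
    rw [hdeg u v huv, Nat.cast_mul] at h1
    exact h1
  -- a long pair
  have key : ∀ a b d : Fin 3, a ≠ b → a ≠ d → b ≠ d →
      (ν a : ℝ) * ν b * ν d ≤ M ^ e * L ^ 2 → ¬ L ^ 2 / (M ^ e) ^ 2 ≤ (ν b : ℝ) * ν d := by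
    intro a b d hab had hbd hprod hlong
    obtain ⟨h4, h5⟩ := as_num_two (hν1 b) (hν1 d) (hν1 a) hMe hL10
      (by
        have : (ν b : ℝ) * ν d * ν a = ν a * ν b * ν d := by ring
        linarith) hlong (by rw [mul_comm]; exact hlow' a b hab) (by rw [mul_comm]; exact hlow' a d had)
    have hmidd : ∀ u : Fin 3, a ≠ u → (ν u : ℝ) * ν a ≤ (M ^ e) ^ 5 * L →
        ∀ d : ℕ, d ∣ ν a * ν u → L ≤ M ^ e * d ∨ L * d ≤ M ^ e * (ν a * ν u : ℕ) := by
      intro u hau hsh dd hdd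
      have halt : ∀ x ∈ V, ∀ s : ℂ ≃+* ℂ, ‖s (x (i a))‖ ≤ C₂ a u ∨ ‖s (x (i u))‖ ≤ C₂ a u := by
        by_contra halt
        have h1 := hcommon a u hau halt
        rw [hdeg a u hau, Nat.cast_mul, div_le_iff₀ (by positivity)] at h1
        have h2 : L * L ≤ ((M ^ e) ^ 7) * L := by
          calc L * L = L ^ 2 := by ring
            _ ≤ (ν a : ℝ) * ν u * (M ^ e) ^ 2 := h1
            _ = ν u * ν a * (M ^ e) ^ 2 := by ring
            _ ≤ ((M ^ e) ^ 5 * L) * (M ^ e) ^ 2 := by gcongr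
            _ = _ := by ring
        have h3 : L ≤ (M ^ e) ^ 7 := le_of_mul_le_mul_right h2 hL0
        have h4 : (M ^ e) ^ 7 ≤ (M ^ e) ^ 10 := pow_le_pow_right₀ (by linarith) (by norm_num)
        linarith
      have h1 := hmid K (x (i a)) (x (i u)) M L hM2 hDM (hK a) (hK u) (hN a) (hint a) (hI a u)
        (hLpow cm (by omega)).le (hmain a) (fun s => by
          have key : ∀ z : ℂ, ‖z‖ ≤ C₂ a u → Real.log ‖z‖ ≤ M := by
            intro z hz
            rcases (norm_nonneg z).eq_or_lt with h0 | h0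
            · rw [← h0, Real.log_zero]
              exact hM0.le
            · have := Real.log_le_sub_one_of_pos h0
              have := (hl2 a u).trans hCM
              linarith
          rcases halt x hx s with h | h
          · exact Or.inl (key _ h)
          · exact Or.inr (key _ h)) dd (by rw [hdeg a u hau]; exact hdd)
      rw [hdeg a u hau] at h1
      have h2 := as_mono hM2 (show cm ≤ e by omega)
      have hd0 : (0 : ℝ) ≤ dd := Nat.cast_nonneg _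
      rcases h1 with h | h
      · exact Or.inl (h.trans (by gcongr))
      · exact Or.inr (h.trans (by gcongr))
    obtain ⟨p, q, hp, hq, hpd, hqd, hpq, b1, b2, b3, b4, b5, b6, b7⟩ :=
      num_struct (hν a) (hν b) (hν d) hMe hL20 hprod hlong (hlow' a b hab) (hlow' a d had)
        (hmidd b hab h4) (hmidd d had h5)
    apply hconS
    have hB : (M ^ e) ^ 24 ≤ (((C₀ + X : ℕ) : ℝ) * D) ^ (C₀ + X) := by
      refine le_trans ?_ hMX
      rw [← pow_mul]
      exact as_mono hM2 (by omega)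
    refine Struct.mono (B := (M ^ e) ^ 24) ⟨a, b, d, p, q, hab, had, hbd, hp, hq, ?_, ?_, ?_, ?_, ?_,
      ?_, b4, b5, b6, b7⟩ hB hL0.le
    · rw [hdeg a b hab]; exact hpd
    · rw [hdeg a d had]; exact hqd
    · rw [hdeg b d hbd]; exact hpq
    · rw [hdeg a b hab]; exact b1
    · rw [hdeg a d had]; exact b2
    · rw [hdeg b d hbd]; exact b3
  have hres := as_num (hν1 0) (hν1 1) (hν1 2) hMe hL10 hp3 (hlow' 0 1 (by decide))
    (hlow' 0 2 (by decide)) (hlow' 1 2 (by decide)) (hdich 0 1 (by decide)) (hdich 0 2 (by decide))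
    (hdich 1 2 (by decide))
  rcases hres with h | h | h
  · exact key 2 0 1 (by decide) (by decide) (by decide)
      (by
        have : (ν 2 : ℝ) * ν 0 * ν 1 = ν 0 * ν 1 * ν 2 := by ring
        linarith) h.1
  · exact key 1 0 2 (by decide) (by decide) (by decide)
      (by
        have : (ν 1 : ℝ) * ν 0 * ν 2 = ν 0 * ν 1 * ν 2 := by ring
        linarith) h.2.1
  · exact key 0 1 2 (by decide) (by decide) (by decide) hp3 h.2.2

end Pool.Agent.LGO.SM
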