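import Mathlib
import Pool.Agent.LGO.F.AsFin
import Pool.Agent.LGO.SM.Core

/-!
# LGO/SM: finiteness from a bound for the heights

As `F.as_finite`, for the isogenous triples with a property `P`.
-/

namespace Pool.Agent.LGO.SM

open MvPolynomial UpperHalfPlane Pool.Agent.Hhelper14.ZP Pool.Agent.Hhelper14.ZPL Pool.Agent.LGO.F

variable {n : ℕ} {V : Set (Fin n → ℂ)}

/-- one of the conjugates of an integral number has the largest absolute value -/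
private theorem Fin_max {z : ℂ} (hz : IsIntegral ℤ z) :
    ∃ s₀ : ℂ ≃+* ℂ, ∀ s : ℂ ≃+* ℂ, ‖s z‖ ≤ ‖s₀ z‖ := by
  classical
  have hint : IsIntegral ℚ z := hz.tower_top
  have hP0 : minpoly ℚ z ≠ 0 := minpoly.ne_zero hint
  have hfin : (Set.range fun s : ℂ ≃+* ℂ => ‖s z‖).Finite := by
    apply Set.Finite.subset ((((minpoly ℚ z).aroots ℂ).toFinset.finite_toSet).image fun w => ‖w‖)
    rintro _ ⟨s, rfl⟩
    refine ⟨s z, ?_, rfl⟩
    rw [Finset.mem_coe, Multiset.mem_toFinset, Polynomial.mem_aroots]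
    refine ⟨hP0, ?_⟩
    have h1 := Polynomial.aeval_algHom_apply (RingHom.toRatAlgHom (s : ℂ →+* ℂ)) z (minpoly ℚ z)
    rw [minpoly.aeval, map_zero] at h1
    exact h1
  obtain ⟨r, ⟨s₀, hs₀⟩, hr⟩ := Set.exists_max_image (Set.range fun s : ℂ ≃+* ℂ => ‖s z‖) id hfin
    ⟨_, ⟨RingEquiv.refl ℂ, rfl⟩⟩
  refine ⟨s₀, fun s => ?_⟩
  have := hr _ ⟨s, rfl⟩
  rw [← hs₀] at this
  exact this

/-- the counting argument: a bound for the heights of the points with `P` gives finiteness -/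
theorem fin_of_bound (hV : Pool.Agent.Hhelper14.ZPL.IsIrredClosed V)
    (hVk : KClosed V) (hdim : Pool.Agent.Hhelper14.ZPL.dim V = 1) (i : Fin 3 → Fin n)
    (hi : Function.Injective i) (hconst : ∀ a, ∀ c : ℂ, ∃ x ∈ V, x (i a) ≠ c)
    (hmod : ∀ a b, a ≠ b → ∀ g : GL (Fin 2) ℚ, 0 < g.det.val →
      ∃ x ∈ V, ¬ ∃ τ : ℍ, x (i a) = jInv τ ∧ x (i b) = jInv (gact g τ))
    {Q : MvPolynomial (Fin 3) ℂ} (hQ0 : constantCoeff Q ≠ 0)
    (hQ : ∀ x ∈ V, (∀ a, x (i a) ≠ 0) → eval (fun a => (x (i a))⁻¹) Q = 0)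
    (P : (Fin n → ℂ) → Prop)
    (hcore : ∃ (C : ℕ) (E : Set (Fin n → ℂ)), E.Finite ∧ ∀ x ∈ V, x ∉ E → P x →
      (∀ a, NCM (x (i a))) → (∀ a b, ∃ N, 0 < N ∧ IsogDeg N (x (i a)) (x (i b))) →
      (∀ a, IsIntegral ℤ (x (i a))) →
      ∀ (K : IntermediateField ℚ ℂ) [FiniteDimensional ℚ K], (∀ a, x a ∈ K) → ∀ L : ℝ,
        (∀ a, ∀ s : ℂ ≃+* ℂ, ‖s (x (i a))‖ ≤ Real.exp L) →
        (∃ (a : Fin 3) (s : ℂ ≃+* ℂ), Real.exp L ≤ ‖s (x (i a))‖) →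
        L ≤ ((C : ℝ) * Module.finrank ℚ K) ^ C) :
    {x ∈ V | P x ∧ (∀ a, NCM (x (i a))) ∧
      ∀ a b, ∃ N, 0 < N ∧ IsogDeg N (x (i a)) (x (i b))}.Finite := by
  classical
  obtain ⟨C₀, E, hE, hcore⟩ := hcore
  have hint := int_use hV hVk hdim i hconst hmod hQ0 hQ
  obtain ⟨Cf, Ef, hCf, hEf, hfld⟩ := as_fld_all hV hVk hdim (hconst 0)
  obtain ⟨Ci, hCi, hisog⟩ := as_isog
  have hA := AX.hasAtlas hV hdim i hconst hmod hQ0 hQ
  -- the constant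
  set C : ℕ := (C₀ + 1) * Cf with hC
  have hC1 : 1 ≤ C := Nat.mul_pos (Nat.succ_pos _) hCf
  set C' : ℕ := (Ci * Cf + C) * (Ci + 1) * (C₀ + 2) with hC'
  have hfin := PW.final_concl hV hVk hdim i hi hmod hA C'
  refine (hfin.union ((hE.union hEf).union hint)).subset ?_
  rintro x ⟨hx, hPx, hN, hI⟩
  by_cases hxE : x ∈ E
  · exact Or.inr (Or.inl (Or.inl hxE))
  by_cases hxEf : x ∈ Ef
  · exact Or.inr (Or.inl (Or.inr hxEf))
  by_cases hxi : ∀ a, IsIntegral ℤ (x (i a))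
  swap
  · push Not at hxi
    exact Or.inr (Or.inr ⟨hx, fun a b => hI a b, hxi⟩)
  refine Or.inl ⟨hx, hN, hI, ?_⟩
  have hxint : ∀ a, IsIntegral ℤ (x (i a)) := hxi
  intro K _ hK
  obtain ⟨K', hKK', hfd, hrk, hK'⟩ := hfld x hx hxEf K (hK 0)
  have hD1 : (1 : ℝ) ≤ Module.finrank ℚ K := by
    exact_mod_cast Module.finrank_pos (R := ℚ) (M := K)
  have hD1' : (1 : ℝ) ≤ Module.finrank ℚ K' := by
    exact_mod_cast Module.finrank_pos (R := ℚ) (M := K')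
  have hrkR : (Module.finrank ℚ K' : ℝ) ≤ Cf * Module.finrank ℚ K := by exact_mod_cast hrk
  set D : ℝ := (Module.finrank ℚ K : ℝ) with hD
  set D' : ℝ := (Module.finrank ℚ K' : ℝ) with hD'
  -- the largest conjugate
  choose s₀ hs₀ using fun a => Fin_max (hxint a)
  obtain ⟨a₀, -, ha₀⟩ := Finset.exists_max_image (Finset.univ : Finset (Fin 3))
    (fun a => ‖s₀ a (x (i a))‖) ⟨0, Finset.mem_univ _⟩
  have hx0 : x (i a₀) ≠ 0 := (hN a₀).ne_zero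
  have hpos : 0 < ‖s₀ a₀ (x (i a₀))‖ := by
    rw [norm_pos_iff]
    exact (map_ne_zero _).mpr hx0
  set L : ℝ := Real.log ‖s₀ a₀ (x (i a₀))‖ with hL
  have hexp : Real.exp L = ‖s₀ a₀ (x (i a₀))‖ := Real.exp_log hpos
  have hsL : ∀ a, ∀ s : ℂ ≃+* ℂ, ‖s (x (i a))‖ ≤ Real.exp L := by
    intro a s
    rw [hexp]
    exact (hs₀ a s).trans (ha₀ a (Finset.mem_univ a))
  have h1 := hcore x hx hxE hPx hN hI hxint K' hK' L hsL ⟨a₀, s₀ a₀, hexp.le⟩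
  -- numerical part
  have hCR : (C : ℝ) = (C₀ + 1) * Cf := by rw [hC]; push_cast; ring
  have hCf1 : (1 : ℝ) ≤ Cf := by exact_mod_cast hCf
  have hC₀0 : (0 : ℝ) ≤ C₀ := Nat.cast_nonneg _
  have hCR1 : (1 : ℝ) ≤ C := by exact_mod_cast hC1
  have hCi1 : (1 : ℝ) ≤ Ci := by exact_mod_cast hCi
  have hCD : 1 ≤ C * D := by nlinarith
  have h2 : L ≤ (C * D) ^ (C₀ + 1) := by
    have e1 : (C₀ : ℝ) * D' ≤ C * D := by
      rw [hCR]
      calc (C₀ : ℝ) * D' ≤ (C₀ + 1) * (Cf * D) := by gcongr; linarith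
        _ = (C₀ + 1) * Cf * D := by ring
    calc L ≤ ((C₀ : ℝ) * D') ^ C₀ := h1
      _ ≤ (C * D) ^ C₀ := by gcongr
      _ ≤ (C * D) ^ (C₀ + 1) := pow_le_pow_right₀ hCD (Nat.le_succ _)
  have hB1 : 1 ≤ (C * D) ^ (C₀ + 1) := one_le_pow₀ hCD
  have h3 : ∀ a, ∀ s : ℂ ≃+* ℂ, ‖s (x (i a))‖ ≤ Real.exp ((C * D) ^ (C₀ + 1)) := fun a s =>
    (hsL a s).trans (Real.exp_le_exp.mpr h2)
  have hC'R : (C' : ℝ) = (Ci * Cf + C) * (Ci + 1) * (C₀ + 2) := by rw [hC']; push_cast; ring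
  have hbase : (Ci * Cf + C) * D ≤ C' * D := by
    rw [hC'R]
    have e1 : (1 : ℝ) ≤ (Ci + 1) * (C₀ + 2) := by nlinarith
    have e2 : 0 ≤ (Ci * Cf + C : ℝ) * D := by positivity
    calc (Ci * Cf + C) * D = (Ci * Cf + C) * D * 1 := by ring
      _ ≤ (Ci * Cf + C) * D * ((Ci + 1) * (C₀ + 2)) := by gcongr
      _ = _ := by ring
  have hb1 : 1 ≤ (Ci * Cf + C) * D := by
    have : (0 : ℝ) ≤ Ci * Cf := by positivity
    nlinarith
  have hCle : C * D ≤ (Ci * Cf + C) * D := by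
    have : (0 : ℝ) ≤ Ci * Cf := by positivity
    gcongr
    linarith
  have hexpo : Ci * (C₀ + 2) ≤ C' := by
    rw [hC']
    have e1 : 1 ≤ Ci * Cf + C := by omega
    calc Ci * (C₀ + 2) ≤ (Ci + 1) * (C₀ + 2) := Nat.mul_le_mul_right _ (Nat.le_succ _)
      _ = 1 * ((Ci + 1) * (C₀ + 2)) := by ring
      _ ≤ (Ci * Cf + C) * ((Ci + 1) * (C₀ + 2)) := Nat.mul_le_mul_right _ e1
      _ = _ := by ring
  constructor
  · intro a b
    obtain ⟨h4, -⟩ := hisog K' (x (i a)) (x (i b)) ((C * D) ^ (C₀ + 1)) (hK' _) (hK' _)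
      (hN _) (hxint _) (hI _ _) hB1 (h3 _)
    calc (mdeg (x (i a)) (x (i b)) : ℝ) ≤ (Ci * D' * (C * D) ^ (C₀ + 1)) ^ Ci := h4
      _ ≤ (Ci * (Cf * D) * (C * D) ^ (C₀ + 1)) ^ Ci := by gcongr
      _ ≤ ((Ci * Cf + C) * D * ((Ci * Cf + C) * D) ^ (C₀ + 1)) ^ Ci := by
          have e1 : Ci * (Cf * D) ≤ (Ci * Cf + C) * D := by nlinarith
          gcongr
      _ = ((Ci * Cf + C) * D) ^ (Ci * (C₀ + 2)) := by
          rw [← pow_succ', ← pow_mul]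
          congr 1
          ring
      _ ≤ ((Ci * Cf + C) * D) ^ C' := pow_le_pow_right₀ hb1 hexpo
      _ ≤ (C' * D) ^ C' := by gcongr
  · intro a s
    refine (h3 a s).trans (Real.exp_le_exp.mpr ?_)
    calc (C * D) ^ (C₀ + 1) ≤ ((Ci * Cf + C) * D) ^ (C₀ + 1) := by gcongr
      _ ≤ ((Ci * Cf + C) * D) ^ C' := pow_le_pow_right₀ hb1 (by nlinarith)
      _ ≤ (C' * D) ^ C' := by gcongr

end Pool.Agent.LGO.SM
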