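import Mathlib
import Pool.Agent.LGO.SM.Fin

/-!
# LGO/SM: all but finitely many isogenous triples are exceptional

`NearPrime ε N`: after renumbering `N 0 1`, `N 0 2` are nearly primes `p`, `q` of about the same size and `N 1 2` is nearly `p q`.
-/

namespace Pool.Agent.LGO.SM

open MvPolynomial UpperHalfPlane Pool.Agent.Hhelper14.ZP Pool.Agent.Hhelper14.ZPL Pool.Agent.LGO.F

variable {n : ℕ} {V : Set (Fin n → ℂ)}

/-- three degrees `N a b` (symmetric) are exceptional: for an order `a, b, c` of the three indices there are primes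
`p, q ≥ 1 / ε`, `p ∣ N a b ≤ p ^ (1 + ε)` and `q ∣ N a c ≤ q ^ (1 + ε)`, with `p * q ∣ N b c ≤ (p q) ^ (1 + ε)`,
`p ≤ q ^ (1 + ε)` and `q ≤ p ^ (1 + ε)` -/
def NearPrime (ε : ℝ) (N : Fin 3 → Fin 3 → ℕ) : Prop :=
  ∃ (a b c : Fin 3) (p q : ℕ), a ≠ b ∧ a ≠ c ∧ b ≠ c ∧ p.Prime ∧ q.Prime ∧
    1 / ε ≤ (p : ℝ) ∧ 1 / ε ≤ (q : ℝ) ∧
    p ∣ N a b ∧ q ∣ N a c ∧ p * q ∣ N b c ∧
    (N a b : ℝ) ≤ (p : ℝ) ^ (1 + ε) ∧ (N a c : ℝ) ≤ (q : ℝ) ^ (1 + ε) ∧
    (N b c : ℝ) ≤ ((p : ℝ) * q) ^ (1 + ε) ∧ (p : ℝ) ≤ (q : ℝ) ^ (1 + ε) ∧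
    (q : ℝ) ≤ (p : ℝ) ^ (1 + ε)

/-- if `B ^ (2 k + 1) < L ≤ B r` then `B ^ 2 ≤ r ^ ε` for `1 ≤ k ε` -/
theorem pow_le_rpow {B L ε : ℝ} {k r : ℕ} (hB : 1 ≤ B) (hk : 1 ≤ k) (hε : 1 ≤ k * ε)
    (hL : B ^ (2 * k + 1) < L) (hr : L ≤ B * r) : B ^ 2 ≤ (r : ℝ) ^ ε := by
  have hB0 : 0 < B := by linarith
  have hk0 : (0 : ℝ) < k := by exact_mod_cast hk
  have h1 : B ^ (2 * k) ≤ r := by
    have h2 : B * B ^ (2 * k) ≤ B * r := by
      calc B * B ^ (2 * k) = B ^ (2 * k + 1) := by ring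
        _ ≤ L := hL.le
        _ ≤ _ := hr
    exact le_of_mul_le_mul_left h2 hB0
  have hr1 : (1 : ℝ) ≤ r := (one_le_pow₀ hB).trans h1
  have hε' : 1 / (k : ℝ) ≤ ε := by
    rw [div_le_iff₀ hk0, mul_comm]
    exact hε
  calc B ^ 2 = ((B ^ (2 * k) : ℝ)) ^ (1 / (k : ℝ)) := by
        rw [pow_mul, ← Real.rpow_natCast (B ^ 2) k, ← Real.rpow_mul (by positivity)]
        rw [mul_one_div_cancel hk0.ne', Real.rpow_one]
    _ ≤ (r : ℝ) ^ (1 / (k : ℝ)) := Real.rpow_le_rpow (by positivity) h1 (by positivity)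
    _ ≤ (r : ℝ) ^ ε := Real.rpow_le_rpow_of_exponent_le hr1 hε'

theorem Struct.nearPrime {B L ε : ℝ} {i : Fin 3 → Fin n} {x : Fin n → ℂ} (h : Struct B L i x)
    {k : ℕ} (hB : 1 ≤ B) (hk : 1 ≤ k) (hε : 1 ≤ k * ε) (hL : B ^ (2 * k + 1) < L)
    (hkL : B * k ≤ L) : NearPrime ε (fun a b => mdeg (x (i a)) (x (i b))) := by
  obtain ⟨a, b, c, p, q, h1, h2, h3, hp, hq, h6, h7, h8, h9, h10, h11, h12, h13, h14, h15⟩ := h
  have hB0 : 0 < B := by linarith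
  have hε0 : 0 < ε := by
    by_contra hcon
    rw [not_lt] at hcon
    have : (k : ℝ) * ε ≤ 0 := mul_nonpos_of_nonneg_of_nonpos (Nat.cast_nonneg _) hcon
    linarith
  have hpε := pow_le_rpow hB hk hε hL h12
  have hqε := pow_le_rpow hB hk hε hL h14
  have hp0 : (0 : ℝ) < p := by exact_mod_cast hp.pos
  have hq0 : (0 : ℝ) < q := by exact_mod_cast hq.pos
  have hp1 : (1 : ℝ) ≤ p := by exact_mod_cast hp.one_le
  have hq1 : (1 : ℝ) ≤ q := by exact_mod_cast hq.one_le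
  have hBB : B ≤ B ^ 2 := by nlinarith
  have hL0 : 0 < L := lt_trans (by positivity) hL
  have key : ∀ r : ℝ, 0 < r → B ^ 2 ≤ r ^ ε → B ^ 2 * r ≤ r ^ (1 + ε) := by
    intro r hr h
    rw [Real.rpow_add hr, Real.rpow_one, mul_comm]
    gcongr
  have hlow : ∀ r : ℕ, L ≤ B * r → 1 / ε ≤ (r : ℝ) := by
    intro r hr
    have h16 : (k : ℝ) ≤ r := le_of_mul_le_mul_left (hkL.trans hr) hB0
    rw [div_le_iff₀ hε0]
    calc (1 : ℝ) ≤ k * ε := hε
      _ ≤ r * ε := by gcongr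
  have hpq : B ^ 2 ≤ ((p : ℝ) * q) ^ ε := by
    refine hpε.trans (Real.rpow_le_rpow hp0.le ?_ hε0.le)
    nlinarith
  refine ⟨a, b, c, p, q, h1, h2, h3, hp, hq, hlow p h12, hlow q h14, h6, h7, h8, ?_, ?_, ?_, ?_, ?_⟩
  · exact h9.trans (le_trans (by gcongr) (key p hp0 hpε))
  · exact h10.trans (le_trans (by gcongr) (key q hq0 hqε))
  · exact h11.trans (le_trans (by gcongr) (key (p * q) (by positivity) hpq))
  · refine le_trans ?_ (key q hq0 hqε)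
    calc (p : ℝ) ≤ B * L := h13
      _ ≤ B * (B * q) := by gcongr
      _ = B ^ 2 * q := by ring
  · refine le_trans ?_ (key p hp0 hpε)
    calc (q : ℝ) ≤ B * L := h15
      _ ≤ B * (B * p) := by gcongr
      _ = B ^ 2 * p := by ring

theorem fin3_pairs : ∀ a b c u v : Fin 3, a ≠ b → a ≠ c → b ≠ c → u ≠ v →
    (u = a ∧ v = b) ∨ (u = b ∧ v = a) ∨ (u = a ∧ v = c) ∨ (u = c ∧ v = a) ∨
      (u = b ∧ v = c) ∨ (u = c ∧ v = b) := by
  decide

/-- **all but finitely many isogenous triples are exceptional** (`V` avoids `(∞, ∞, ∞)`) -/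
theorem exc_Q (hS : SharpAll) (hV : Pool.Agent.Hhelper14.ZPL.IsIrredClosed V)
    (hVk : KClosed V) (hdim : Pool.Agent.Hhelper14.ZPL.dim V = 1) (i : Fin 3 → Fin n)
    (hi : Function.Injective i) (hconst : ∀ a, ∀ c : ℂ, ∃ x ∈ V, x (i a) ≠ c)
    (hmod : ∀ a b, a ≠ b → ∀ g : GL (Fin 2) ℚ, 0 < g.det.val →
      ∃ x ∈ V, ¬ ∃ τ : ℍ, x (i a) = jInv τ ∧ x (i b) = jInv (gact g τ))
    {Q : MvPolynomial (Fin 3) ℂ} (hQ0 : constantCoeff Q ≠ 0)
    (hQ : ∀ x ∈ V, (∀ a, x (i a) ≠ 0) → eval (fun a => (x (i a))⁻¹) Q = 0) {ε : ℝ} (hε : 0 < ε) :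
    {x ∈ V | ¬ (NearPrime ε (fun a b => mdeg (x (i a)) (x (i b))) ∧
        ∀ a b, a ≠ b → (Module.finrank ℚ (IntermediateField.adjoin ℚ (Set.range x)) : ℝ) ≤
          (mdeg (x (i a)) (x (i b)) : ℝ) ^ ε) ∧
      (∀ a, NCM (x (i a))) ∧
      ∀ a b, ∃ N, 0 < N ∧ IsogDeg N (x (i a)) (x (i b))}.Finite := by
  classical
  obtain ⟨k, hk⟩ := exists_nat_ge (1 / ε + 1)
  have hk1 : 1 ≤ k := by
    have : (1 : ℝ) ≤ k := by
      have : 0 < 1 / ε := by positivity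
      linarith
    exact_mod_cast this
  have hkε : 1 ≤ k * ε := by
    have h1 : 1 / ε ≤ k := by linarith
    rw [div_le_iff₀ hε] at h1
    exact h1
  obtain ⟨C, E, hC, hE, hcore⟩ := sm_core hS hV hVk hdim i hi hconst hmod
  refine fin_of_bound hV hVk hdim i hi hconst hmod hQ0 hQ _ ⟨C * (2 * k + 1) + k, E, hE, ?_⟩
  intro x hx hxE hP hN hI hint K _ hK L hL hLs
  by_contra hcon
  rw [not_le] at hcon
  have hD1 : (1 : ℝ) ≤ Module.finrank ℚ K := by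
    exact_mod_cast Module.finrank_pos (R := ℚ) (M := K)
  have hC1 : (1 : ℝ) ≤ C := by exact_mod_cast hC
  have hCD : 1 ≤ (C : ℝ) * Module.finrank ℚ K := by nlinarith
  set B : ℝ := ((C : ℝ) * Module.finrank ℚ K) ^ C with hBdef
  have hB1 : 1 ≤ B := one_le_pow₀ hCD
  have hk1R : (1 : ℝ) ≤ k := by exact_mod_cast hk1
  have hBk : B ^ (2 * k + 1) * k < L := by
    refine lt_of_le_of_lt ?_ hcon
    rw [hBdef, ← pow_mul, pow_add]
    have e1 : (C : ℝ) ≤ ((C * (2 * k + 1) + k : ℕ) : ℝ) := by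
      push_cast
      nlinarith
    have e2 : (k : ℝ) ≤ ((C * (2 * k + 1) + k : ℕ) : ℝ) * Module.finrank ℚ K := by
      push_cast
      have e3 : (0 : ℝ) ≤ C * (2 * k + 1) := by positivity
      nlinarith
    have e4 : (k : ℝ) ≤ (((C * (2 * k + 1) + k : ℕ) : ℝ) * Module.finrank ℚ K) ^ k :=
      e2.trans (le_self_pow₀ (hk1R.trans e2) (by omega))
    gcongr
  have hBL : B ^ (2 * k + 1) < L := by
    refine lt_of_le_of_lt ?_ hBk
    have : 0 ≤ B ^ (2 * k + 1) := by positivity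
    nlinarith
  have hkL : B * k ≤ L := by
    refine le_trans ?_ hBk.le
    have : B ≤ B ^ (2 * k + 1) := le_self_pow₀ hB1 (by omega)
    gcongr
  rcases hcore x hx hxE hN hI hint K (fun a => hK (i a)) L hL hLs with h | h
  · have h1 : B ≤ B ^ (2 * k + 1) := le_self_pow₀ hB1 (by omega)
    linarith
  · refine hP ⟨h.nearPrime hB1 hk1 hkε hBL hkL, ?_⟩
    obtain ⟨a, b, c, p, q, h1, h2, h3, hp, hq, h6, h7, h8, h9, h10, h11, h12, h13, h14, h15⟩ := h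
    have hDK : (Module.finrank ℚ (IntermediateField.adjoin ℚ (Set.range x)) : ℝ) ≤
        Module.finrank ℚ K := by
      have hle : IntermediateField.adjoin ℚ (Set.range x) ≤ K := by
        rw [IntermediateField.adjoin_le_iff]
        rintro _ ⟨a, rfl⟩
        exact hK a
      exact_mod_cast LinearMap.finrank_le_finrank_of_injective
        (f := (IntermediateField.inclusion hle).toLinearMap)
        (IntermediateField.inclusion hle).injective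
    have hDB : (Module.finrank ℚ K : ℝ) ≤ B := by
      calc (Module.finrank ℚ K : ℝ) ≤ C * Module.finrank ℚ K := by nlinarith
        _ ≤ B := le_self_pow₀ hCD (by omega)
    have hBB : B ≤ B ^ 2 := by nlinarith
    have hpos : ∀ a b, 0 < mdeg (x (i a)) (x (i b)) := fun a b => mdeg_pos (hI a b)
    have key : ∀ (r : ℕ) (u v : Fin 3), r ∣ mdeg (x (i u)) (x (i v)) → L ≤ B * r →
        (Module.finrank ℚ (IntermediateField.adjoin ℚ (Set.range x)) : ℝ) ≤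
          (mdeg (x (i u)) (x (i v)) : ℝ) ^ ε := by
      intro r u v hr hLr
      have e1 := pow_le_rpow hB1 hk1 hkε hBL hLr
      have e2 : (r : ℝ) ≤ mdeg (x (i u)) (x (i v)) := by
        exact_mod_cast Nat.le_of_dvd (hpos u v) hr
      refine (hDK.trans (hDB.trans (hBB.trans e1))).trans ?_
      exact Real.rpow_le_rpow (Nat.cast_nonneg _) e2 hε.le
    intro u v huv
    have hcases : (u = a ∧ v = b) ∨ (u = b ∧ v = a) ∨ (u = a ∧ v = c) ∨ (u = c ∧ v = a) ∨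
        (u = b ∧ v = c) ∨ (u = c ∧ v = b) := fin3_pairs a b c u v h1 h2 h3 huv
    rcases hcases with ⟨rfl, rfl⟩ | ⟨rfl, rfl⟩ | ⟨rfl, rfl⟩ | ⟨rfl, rfl⟩ | ⟨rfl, rfl⟩ | ⟨rfl, rfl⟩
    · exact key p _ _ h6 h12
    · exact key p _ _ (by rw [mdeg_symm]; exact h6) h12
    · exact key q _ _ h7 h14
    · exact key q _ _ (by rw [mdeg_symm]; exact h7) h14
    · exact key p _ _ ((Dvd.intro _ rfl).trans h8) h12
    · exact key p _ _ (by rw [mdeg_symm]; exact (Dvd.intro _ rfl).trans h8) h12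

end Pool.Agent.LGO.SM
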