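import Mathlib
import Pool.Agent.LGO.End.Real
import Pool.Agent.LGO.S.Sparse
import Pool.Agent.LGO.SM.Exc

/-!
# LGO/SM: isogenous triples on a curve in `ℂ³` over `Qb`, no condition at infinity

`exc3`: all but finitely many are `NearPrime` and of small degree.  `spr3`: all but finitely many have all three degrees
in a sparse set.
-/

namespace Pool.Agent.LGO.SM

open MvPolynomial Filter Topology UpperHalfPlane Pool.Agent.Hhelper14.ZP Pool.Agent.Hhelper14.ZPL Pool.Agent.LGO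
  Pool.Agent.LGO.ZF Pool.Agent.LGO.ZG Pool.Agent.LGO.ZV Pool.Agent.LGO.F Pool.Agent.LGO.LK

theorem sp_mono {K K' : ℕ} {S : Set ℕ} (h : Sparse K S) (hK : K ≤ K') (hK0 : 0 < K) : Sparse K' S := by
  intro X hX
  refine (Set.encard_le_encard ?_).trans ((h X hX).trans (by exact_mod_cast hK))
  rintro N ⟨h1, h2, h3⟩
  refine ⟨h1, h2, h3.trans (Real.exp_le_exp.mpr ?_)⟩
  refine Real.rpow_le_rpow_of_exponent_le hX ?_
  have h4 : (0 : ℝ) < K := by exact_mod_cast hK0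
  have h5 : (K : ℝ) ≤ K' := by exact_mod_cast hK
  exact one_div_le_one_div_of_le h4 h5

theorem sp_union {K K' : ℕ} {S S' : Set ℕ} (h : Sparse K S) (h' : Sparse K' S') (hK : 0 < K)
    (hK' : 0 < K') : Sparse (K + K') (S ∪ S') := by
  intro X hX
  have e1 := Real.rpow_le_rpow_of_exponent_le hX (show 1 / ((K + K' : ℕ) : ℝ) ≤ 1 / (K : ℝ) from by
    have h4 : (0 : ℝ) < K := by exact_mod_cast hK
    have h5 : (K : ℝ) ≤ ((K + K' : ℕ) : ℝ) := by exact_mod_cast Nat.le_add_right _ _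
    exact one_div_le_one_div_of_le h4 h5)
  have e2 := Real.rpow_le_rpow_of_exponent_le hX (show 1 / ((K + K' : ℕ) : ℝ) ≤ 1 / (K' : ℝ) from by
    have h4 : (0 : ℝ) < K' := by exact_mod_cast hK'
    have h5 : (K' : ℝ) ≤ ((K + K' : ℕ) : ℝ) := by exact_mod_cast Nat.le_add_left _ _
    exact one_div_le_one_div_of_le h4 h5)
  have h1 : {N ∈ S ∪ S' | X ≤ (N : ℝ) ∧ (N : ℝ) ≤ Real.exp (X ^ (1 / ((K + K' : ℕ) : ℝ)))} ⊆
      {N ∈ S | X ≤ (N : ℝ) ∧ (N : ℝ) ≤ Real.exp (X ^ (1 / (K : ℝ)))} ∪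
        {N ∈ S' | X ≤ (N : ℝ) ∧ (N : ℝ) ≤ Real.exp (X ^ (1 / (K' : ℝ)))} := by
    rintro N ⟨h1 | h1, h2, h3⟩
    · exact Or.inl ⟨h1, h2, h3.trans (Real.exp_le_exp.mpr e1)⟩
    · exact Or.inr ⟨h1, h2, h3.trans (Real.exp_le_exp.mpr e2)⟩
  refine (Set.encard_le_encard h1).trans ((Set.encard_union_le _ _).trans ?_)
  push_cast
  exact add_le_add (h X hX) (h' X hX)

theorem sp_empty {K : ℕ} : Sparse K ∅ := by
  intro X _
  simp

theorem sp_iUnion {ι : Type*} [Finite ι] (K : ι → ℕ) (S : ι → Set ℕ) (hK : ∀ j, 0 < K j)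
    (h : ∀ j, Sparse (K j) (S j)) : ∃ K₀ : ℕ, 0 < K₀ ∧ Sparse K₀ (⋃ j, S j) := by
  classical
  cases nonempty_fintype ι
  suffices H : ∀ s : Finset ι, ∃ K₀ : ℕ, 0 < K₀ ∧ Sparse K₀ (⋃ j ∈ s, S j) by
    obtain ⟨K₀, h1, h2⟩ := H Finset.univ
    exact ⟨K₀, h1, by simpa using h2⟩
  intro s
  induction s using Finset.induction_on with
  | empty => exact ⟨1, one_pos, by simpa using sp_empty⟩
  | insert a s _ ih =>
    obtain ⟨K₀, h1, h2⟩ := ih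
    refine ⟨K a + K₀, by omega, ?_⟩
    rw [Finset.set_biUnion_insert]
    exact sp_union (h a) h2 (hK a) h1

variable {C : Set (Fin 3 → ℂ)}

theorem hall_of {x : Fin 3 → ℂ} (h3 : HeckeRel (x 0) (x 1)) (h4 : HeckeRel (x 0) (x 2)) :
    ∀ a b, ∃ N, 0 < N ∧ IsogDeg N (x a) (x b) := by
  have hall : ∀ a, HeckeRel (x 0) (x a) := by
    intro a
    fin_cases a
    · exact HeckeRel.refl' _
    · exact h3
    · exact h4
  exact fun a b => heckeRel_iff.mp (HeckeRel.trans' (HeckeRel.symm' (hall a)) (hall b))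

/-- the exceptional triples are nearly prime -/
theorem exc3 (h : ZV.Crv C) {ε : ℝ} (hε : 0 < ε) :
    {x ∈ C | ((∀ a, NCM (x a)) ∧ HeckeRel (x 0) (x 1) ∧ HeckeRel (x 0) (x 2)) ∧
      ¬ (NearPrime ε (fun a b => mdeg (x a) (x b)) ∧
        ∀ a b, a ≠ b → (Module.finrank ℚ (IntermediateField.adjoin ℚ (Set.range x)) : ℝ) ≤
          (mdeg (x a) (x b) : ℝ) ^ ε)}.Finite := by
  by_cases hp : ∃ a b : Fin 3, a ≠ b ∧ CPole C a b
  · obtain ⟨a, b, hab, hp⟩ := hp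
    exact (triP_pole h hab hp).subset fun x hx => ⟨hx.1, hx.2.1⟩
  push Not at hp
  obtain ⟨Q, hQ0, hQ⟩ := avoid_of h hp
  refine (exc_Q sharp h.irr h.kcl h.dim id Function.injective_id h.nc h.nomod hQ0 hQ hε).subset ?_
  rintro x ⟨hx, ⟨h2, h3, h4⟩, h5⟩
  exact ⟨hx, h5, h2, hall_of h3 h4⟩

private theorem third' (a : Fin 3) : ∃ b c : Fin 3, a ≠ b ∧ a ≠ c ∧ b ≠ c := by
  fin_cases a <;> decide

private theorem bdd_sub (u : ℕ → ℂ) (h : ¬ Tendsto (fun m => ‖u m‖) atTop atTop) :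
    ∃ (φ : ℕ → ℕ) (β : ℂ), StrictMono φ ∧ Tendsto (fun m => u (φ m)) atTop (𝓝 β) := by
  rw [tendsto_atTop] at h
  push Not at h
  obtain ⟨R, hR⟩ := h
  have hfr : ∃ᶠ m in atTop, u m ∈ Metric.closedBall (0 : ℂ) R := by
    refine hR.mono fun m hm => ?_
    rw [mem_closedBall_zero_iff]
    exact hm.le
  obtain ⟨γ, -, φ, hφ, hlim⟩ := (isCompact_closedBall (0 : ℂ) R).tendsto_subseq' hfr
  exact ⟨φ, γ, hφ, hlim⟩

/-- at a pole of the coordinate `a` of a curve without common poles the two others are finite -/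
theorem typeA_of (h : ZV.Crv C) (hn : ∀ a b : Fin 3, a ≠ b → ¬ CPole C a b) {a b c : Fin 3}
    (hab : a ≠ b) (hac : a ≠ c) (hbc : b ≠ c) : ∃ β γ : ℂ, TypeA C id a b c β γ := by
  obtain ⟨P, hP, hPa⟩ := exists_unbounded h.irr a (h.nc a)
  have key : ∀ (φ : ℕ → ℕ), StrictMono φ → ∀ d, a ≠ d → ¬ Tendsto (fun m => ‖P (φ m) d‖) atTop atTop := by
    intro φ hφ d had ht
    refine hn a d had fun R => ?_
    obtain ⟨k, h1, h2⟩ := (((hPa.comp hφ.tendsto_atTop).eventually_gt_atTop R).and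
      (ht.eventually_gt_atTop R)).exists
    exact ⟨P (φ k), hP _, h1, h2⟩
  obtain ⟨φ, β, hφ, hβ⟩ := bdd_sub (fun m => P m b) (key id strictMono_id b hab)
  obtain ⟨ψ, γ, hψ, hγ⟩ := bdd_sub (fun m => P (φ m) c) (key φ hφ c hac)
  exact ⟨β, γ, hab, hac, hbc, fun m => P (φ (ψ m)), fun m => hP _,
    hPa.comp ((hφ.comp hψ).tendsto_atTop), hβ.comp hψ.tendsto_atTop, hγ⟩

/-- the degree of the pair `b, c` is in a sparse set -/
theorem spr_one (h : ZV.Crv C) (hn : ∀ a b : Fin 3, a ≠ b → ¬ CPole C a b) {a b c : Fin 3}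
    (hab : a ≠ b) (hac : a ≠ c) (hbc : b ≠ c) : ∃ (K : ℕ) (S : Set ℕ), 0 < K ∧ Sparse K S ∧
      {x ∈ C | ((∀ a, NCM (x a)) ∧ HeckeRel (x 0) (x 1) ∧ HeckeRel (x 0) (x 2)) ∧
        mdeg (x b) (x c) ∉ S}.Finite := by
  obtain ⟨β, γ, hA⟩ := typeA_of h hn hab hac hbc
  by_cases hβ : NCM β
  swap
  · rw [ncm_iff, not_not] at hβ
    obtain ⟨τ, hτ, hj⟩ := hβ
    obtain ⟨P, hP, h1, h2, -⟩ := hA.ex
    refine ⟨1, ∅, one_pos, sp_empty, (triP_cm h hab ⟨P, τ, hτ, hP, h1, hj ▸ h2⟩).subset ?_⟩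
    exact fun x hx => ⟨hx.1, hx.2.1⟩
  obtain ⟨Q, hQ0, hQ⟩ := avoid_of h hn
  obtain ⟨K, E, S, hK, hE, hS, hx⟩ := sparse h.irr h.kcl h.dim id h.nomod hA (Or.inl hβ)
  refine ⟨K, S, hK, hS, ?_⟩
  have hAt := AX.hasAtlas h.irr h.dim id h.nc h.nomod hQ0 hQ
  refine ((hE.union (int_use h.irr h.kcl h.dim id h.nc h.nomod hQ0 hQ)).union
    (PW.final_concl h.irr h.kcl h.dim id Function.injective_id h.nomod hAt K)).subset ?_
  rintro x ⟨hxV, ⟨h2, h3, h4⟩, h5⟩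
  have hI := hall_of h3 h4
  by_cases hxE : x ∈ E
  · exact Or.inl (Or.inl hxE)
  · by_cases hint : ∀ a, IsIntegral ℤ (x (id a))
    · exact Or.inr ⟨hxV, h2, hI, hx x hxV hxE h5 h2 hI hint⟩
    · push Not at hint
      exact Or.inl (Or.inr ⟨hxV, hI, hint⟩)

/-- all three degrees are in a sparse set -/
theorem spr3 (h : ZV.Crv C) : ∃ (K : ℕ) (S : Set ℕ), 0 < K ∧ Sparse K S ∧
    {x ∈ C | ((∀ a, NCM (x a)) ∧ HeckeRel (x 0) (x 1) ∧ HeckeRel (x 0) (x 2)) ∧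
      ¬ ∀ a b, a ≠ b → mdeg (x a) (x b) ∈ S}.Finite := by
  by_cases hp : ∃ a b : Fin 3, a ≠ b ∧ CPole C a b
  · obtain ⟨a, b, hab, hp⟩ := hp
    exact ⟨1, ∅, one_pos, sp_empty, (triP_pole h hab hp).subset fun x hx => ⟨hx.1, hx.2.1⟩⟩
  push Not at hp
  obtain ⟨K₀, S₀, hK₀, hS₀, h0⟩ := spr_one h hp (a := 0) (b := 1) (c := 2) (by decide) (by decide)
    (by decide)
  obtain ⟨K₁, S₁, hK₁, hS₁, h1⟩ := spr_one h hp (a := 1) (b := 0) (c := 2) (by decide) (by decide)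
    (by decide)
  obtain ⟨K₂, S₂, hK₂, hS₂, h2⟩ := spr_one h hp (a := 2) (b := 0) (c := 1) (by decide) (by decide)
    (by decide)
  refine ⟨K₀ + K₁ + K₂, S₀ ∪ S₁ ∪ S₂, by omega, sp_union (sp_union hS₀ hS₁ hK₀ hK₁) hS₂ (by omega) hK₂,
    ((h0.union h1).union h2).subset ?_⟩
  rintro x ⟨hx, hT, hns⟩
  by_contra hcon
  apply hns
  simp only [Set.mem_union, Set.mem_ofPred_eq, not_or, not_and, not_not] at hcon
  have e0 := hcon.1.1 hx hT
  have e1 := hcon.1.2 hx hT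
  have e2 := hcon.2 hx hT
  intro a b hab
  fin_cases a <;> fin_cases b
  · exact absurd rfl hab
  · exact Or.inr e2
  · exact Or.inl (Or.inr e1)
  · exact Or.inr (by rw [mdeg_symm]; exact e2)
  · exact absurd rfl hab
  · exact Or.inl (Or.inl e0)
  · exact Or.inl (Or.inr (by rw [mdeg_symm]; exact e1))
  · exact Or.inl (Or.inl (by rw [mdeg_symm]; exact e0))
  · exact absurd rfl hab

end Pool.Agent.LGO.SM
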