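import Mathlib
import Pool.Agent.LGO.FC.MainC
import Pool.Agent.LGO.SM.Tri3

/-!
# LGO/SM: exceptional isogenous triples on a curve over `ℂ` in general position

`Exc S ε y`: the degrees of the triple `y` are in `S`, nearly primes, and larger than a power of the degree of `y`.
`exc_C`: all but finitely many isogenous triples of coordinates are exceptional.  `t34`: the points with a singular modulus.
-/

namespace Pool.Agent.LGO.SM

open MvPolynomial Filter Topology UpperHalfPlane Pool.Agent.Hhelper14.ZP Pool.Agent.Hhelper14.ZPL Pool.Agent.LGO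
  Pool.Agent.LGO.ZF Pool.Agent.LGO.ZG Pool.Agent.LGO.ZV Pool.Agent.LGO.F Pool.Agent.LGO.LK Pool.Agent.LGO.FC
  Pool.Agent.ZPE

variable {n m : ℕ} {W : Set (Fin n → ℂ)}

/-- three isogenous numbers, not CM -/
def Iso3 (y : Fin 3 → ℂ) : Prop := (∀ a, NCM (y a)) ∧ HeckeRel (y 0) (y 1) ∧ HeckeRel (y 0) (y 2)

/-- an exceptional triple -/
def Exc (S : Set ℕ) (ε : ℝ) (y : Fin 3 → ℂ) : Prop :=
  (∀ a b, a ≠ b → mdeg (y a) (y b) ∈ S) ∧ NearPrime ε (fun a b => mdeg (y a) (y b)) ∧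
    ∀ a b, a ≠ b → (Module.finrank ℚ (IntermediateField.adjoin ℚ (Set.range y)) : ℝ) ≤
      (mdeg (y a) (y b) : ℝ) ^ ε

/-- in three dimensions -/
theorem exc_3 {C : Set (Fin 3 → ℂ)} (h : ZV.Crv C) : ∃ (K : ℕ) (S : Set ℕ), 0 < K ∧ Sparse K S ∧
    ∀ (S' : Set ℕ), S ⊆ S' → ∀ ε : ℝ, 0 < ε → {x ∈ C | Iso3 x ∧ ¬ Exc S' ε x}.Finite := by
  obtain ⟨K, S, hK, hS, hfin⟩ := spr3 h
  refine ⟨K, S, hK, hS, fun S' hSS ε hε => (hfin.union (exc3 h hε)).subset ?_⟩
  rintro x ⟨hx, h1, h2⟩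
  by_cases h3 : ∀ a b, a ≠ b → mdeg (x a) (x b) ∈ S
  · exact Or.inr ⟨hx, h1, fun h4 => h2 ⟨fun a b hab => hSS (h3 a b hab), h4.1, h4.2⟩⟩
  · exact Or.inl ⟨hx, h1, h3⟩

private theorem const_rel (h : GP W) {a b : Fin n} (hab : a ≠ b) (ha : ∃ c : ℂ, ∀ x ∈ W, x a = c)
    (hb : ∃ c : ℂ, ∀ x ∈ W, x b = c) {x : Fin n → ℂ} (hx : x ∈ W) : ¬ HeckeRel (x a) (x b) := by
  intro hr
  obtain ⟨g, hg, τ, h1, h2⟩ := mr_of_rel hr
  obtain ⟨y, hy, hyn⟩ := h.nomod a b hab g hg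
  obtain ⟨ca, hca⟩ := ha
  obtain ⟨cb, hcb⟩ := hb
  refine hyn ⟨τ, ?_, ?_⟩
  · rw [hca y hy, ← hca x hx]
    exact h1
  · rw [hcb y hy, ← hcb x hx]
    exact h2

/-- a curve in `ℂ³` or `ℂ²` with a constant coordinate has no projection for the types 1 and 2 -/
theorem vac {C : Set (Fin m → ℂ)} (hm : m ≤ 3) (hc : m = 3 → ∃ a : Fin m, ∃ c : ℂ, ∀ x ∈ C, x a = c) :
    ∀ (l : ℕ) (σ : Fin l → Fin m), Function.Injective σ → ZV.Crv (cp σ C) → T1 (cp σ C) ∧ T2 (cp σ C) := by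
  intro l σ hσ hcrv
  have hl : l ≤ m := by simpa using Fintype.card_le_of_injective σ hσ
  refine ⟨fun i hi => ?_, fun i hi => ?_⟩
  · exfalso
    have h3 : 3 ≤ l := by simpa using Fintype.card_le_of_injective i hi
    have hm3 : m = 3 := by omega
    have hl3 : l = m := by omega
    subst hl3
    obtain ⟨a, c, hac⟩ := hc hm3
    obtain ⟨b, rfl⟩ := (Finite.injective_iff_surjective.mp hσ) a
    obtain ⟨y, hy, hne⟩ := hcrv.nc b c
    have hsub : cp σ C ⊆ {y | y b = c} := by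
      intro y hy
      rw [cp, mem_zeroLocus_iff] at hy
      have h1 := hy (X b - MvPolynomial.C c) (by
        rw [mem_vanishingIdeal_iff]
        rintro _ ⟨x, hx, rfl⟩
        simp [hac x hx])
      have h2 : y b - c = 0 := by simpa using h1
      exact sub_eq_zero.1 h2
    exact hne (hsub hy)
  · exfalso
    have h4 : 4 ≤ l := by simpa using Fintype.card_le_of_injective i hi
    omega

/-- one triple of coordinates -/
theorem part1 (h : GP W) (i : Fin 3 → Fin n) (hi : Function.Injective i) (P : (Fin 3 → ℂ) → Prop)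
    (hP : ZV.Crv (cp i W) → {y ∈ cp i W | Iso3 y ∧ P y}.Finite) :
    {x ∈ W | Iso3 (fun a => x (i a)) ∧ P (fun a => x (i a))}.Finite := by
  by_cases hnc : ∃ a, ∀ c : ℂ, ∃ x ∈ W, x (i a) ≠ c
  · have hC := gp_image h hi hnc
    have hS : {y ∈ cp i W | Iso3 y ∧ P y}.Finite := by
      by_cases hk : KClosed (cp i W)
      · by_cases hall : ∀ (a : Fin 3) (c : ℂ), ∃ y ∈ cp i W, y a ≠ c
        · exact hP ⟨hC.irr, hk, hC.dim, hall, hC.nomod⟩
        · push Not at hall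
          have h1 := (gp_k hC hk (vac le_rfl fun _ => hall)).1 id Function.injective_id
          exact h1.subset fun y hy => ⟨hy.1, hy.2.1⟩
      · exact (gp_n1 hC hk).subset fun y hy => ⟨hy.1, hy.2.1.2⟩
    exact cp_fin h.irr h.dim hnc hS fun x hx => ⟨hx.1, cp_mem hx.1, hx.2⟩
  · push Not at hnc
    refine Set.finite_empty.subset fun x hx => ?_
    exact absurd hx.2.1.2.1 (const_rel h (hi.ne (by decide)) (hnc 0) (hnc 1) hx.1)

/-- the points with a singular modulus -/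
theorem t34 (h : GP W) : T3 W ∧ T4 W := by
  refine ⟨fun i hi => ?_, fun i hi => ?_⟩
  · by_cases hnc : ∃ a, ∀ c : ℂ, ∃ x ∈ W, x (i a) ≠ c
    · have hC := gp_image h hi hnc
      have hS : {y ∈ cp i W | NCM (y 0) ∧ NCM (y 1) ∧ HeckeRel (y 0) (y 1) ∧ IsCMVal (y 2)}.Finite := by
        by_cases hk : KClosed (cp i W)
        · by_cases hall : ∀ (a : Fin 3) (c : ℂ), ∃ y ∈ cp i W, y a ≠ c
          · exact T3_v ⟨hC.irr, hk, hC.dim, hall, hC.nomod⟩ ZG.cmAll id Function.injective_id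
          · push Not at hall
            exact (gp_k hC hk (vac le_rfl fun _ => hall)).2.2.1 id Function.injective_id
        · exact (gp_n3 hC hk).subset fun y hy => ⟨hy.1, hy.2.2.2⟩
      exact cp_fin h.irr h.dim hnc hS fun x hx => ⟨hx.1, cp_mem hx.1, hx.2⟩
    · push Not at hnc
      refine Set.finite_empty.subset fun x hx => ?_
      exact absurd hx.2.2.2.1 (const_rel h (hi.ne (by decide)) (hnc 0) (hnc 1) hx.1)
  · by_cases hnc : ∃ a, ∀ c : ℂ, ∃ x ∈ W, x (i a) ≠ c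
    · have hC := gp_image h hi hnc
      have hS : {y ∈ cp i W | IsCMVal (y 0) ∧ IsCMVal (y 1)}.Finite := by
        by_cases hk : KClosed (cp i W)
        · exact (gp_k hC hk (vac (by norm_num) (by norm_num))).2.2.2 id Function.injective_id
        · exact gp_n4 hC hk
      exact cp_fin h.irr h.dim hnc hS fun x hx => ⟨hx.1, cp_mem hx.1, hx.2⟩
    · push Not at hnc
      refine Set.finite_empty.subset fun x hx => ?_
      obtain ⟨c, hc⟩ := hnc 0
      obtain ⟨y, hy, hyn⟩ := h.ncm (i 0) (x (i 0)) hx.2.1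
      exact absurd (by rw [hc y hy, hc x hx.1]) hyn

/-- **all but finitely many isogenous triples of coordinates are exceptional** -/
theorem exc_C (h : GP W) : ∃ (K : ℕ) (S : Set ℕ), 0 < K ∧ Sparse K S ∧ ∀ ε : ℝ, 0 < ε →
    {x ∈ W | ∃ i : Fin 3 → Fin n, Function.Injective i ∧ Iso3 (fun a => x (i a)) ∧
      ¬ Exc S ε (fun a => x (i a))}.Finite := by
  classical
  have key : ∀ i : {i : Fin 3 → Fin n // Function.Injective i}, ∃ (K : ℕ) (S : Set ℕ), 0 < K ∧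
      Sparse K S ∧ ∀ (S' : Set ℕ), S ⊆ S' → ∀ ε : ℝ, 0 < ε →
        {x ∈ W | Iso3 (fun a => x (i.1 a)) ∧ ¬ Exc S' ε (fun a => x (i.1 a))}.Finite := by
    rintro ⟨i, hi⟩
    by_cases hcrv : ZV.Crv (cp i W)
    · obtain ⟨K, S, hK, hS, hf⟩ := exc_3 hcrv
      exact ⟨K, S, hK, hS, fun S' hSS ε hε =>
        part1 h i hi (fun y => ¬ Exc S' ε y) fun _ => hf S' hSS ε hε⟩
    · exact ⟨1, ∅, one_pos, sp_empty, fun S' _ ε _ =>
        part1 h i hi (fun y => ¬ Exc S' ε y) fun h' => absurd h' hcrv⟩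
  choose K S hK hS hf using key
  obtain ⟨K₀, hK₀, hS₀⟩ := sp_iUnion K S hK hS
  refine ⟨K₀, ⋃ j, S j, hK₀, hS₀, fun ε hε => ?_⟩
  refine (Set.finite_iUnion fun i => hf i (⋃ j, S j) (Set.subset_iUnion S i) ε hε).subset ?_
  rintro x ⟨hx, i, hi, h1, h2⟩
  exact Set.mem_iUnion.mpr ⟨⟨i, hi⟩, hx, h1, h2⟩

end Pool.Agent.LGO.SM
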