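import Mathlib
import Pool.Agent.LGO.FC.LowC
import Pool.Agent.LGO.SM.PtC

/-!
# LGO/SM: the Zilber-Pink statement for every curve and the special subvarieties of dimension `< n / 2`, up to exceptional points

`W` is any irreducible curve over `ℂ`.
-/

namespace Pool.Agent.LGO.SM

open MvPolynomial Filter Topology UpperHalfPlane Pool.Agent.Hhelper14.ZP Pool.Agent.Hhelper14.ZPL Pool.Agent.LGO
  Pool.Agent.LGO.ZF Pool.Agent.LGO.ZG Pool.Agent.LGO.ZV Pool.Agent.LGO.F Pool.Agent.LGO.LK Pool.Agent.LGO.FC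
  Pool.Agent.ZPE

variable {n m : ℕ} {W : Set (Fin n → ℂ)}

/-- five isogenous coordinates -/
theorem five (h : GP W) {i : Fin 5 → Fin n} (hi : Function.Injective i) :
    {x ∈ W | (∀ a, NCM (x (i a))) ∧ ∀ a b, HeckeRel (x (i a)) (x (i b))}.Finite := by
  by_cases hnc : ∃ a, ∀ c : ℂ, ∃ x ∈ W, x (i a) ≠ c
  · have hC := gp_image h hi hnc
    have hS : {y ∈ cp i W | (∀ a, NCM (y a)) ∧ ∀ a b, HeckeRel (y a) (y b)}.Finite := by
      by_cases hk : KClosed (cp i W)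
      · exact gp_k5 hC hk
      · exact (gp_n5 (by norm_num) hC hk).subset fun y hy => ⟨hy.1, hy.2.2⟩
    exact cp_fin h.irr h.dim hnc hS fun x hx => ⟨hx.1, cp_mem hx.1, hx.2⟩
  · push Not at hnc
    have h1 := (part1 (W := W) h ![i 0, i 1, i 2] (by
      intro a b hab
      have h01 := hi.ne (show (0 : Fin 5) ≠ 1 by decide)
      have h02 := hi.ne (show (0 : Fin 5) ≠ 2 by decide)
      have h12 := hi.ne (show (1 : Fin 5) ≠ 2 by decide)
      fin_cases a <;> fin_cases b <;> simp_all [eq_comm]) (fun _ => True) (fun hcrv => by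
        exfalso
        obtain ⟨c, hc⟩ := hnc 0
        obtain ⟨y, hy, hne⟩ := hcrv.nc 0 c
        apply hne
        have h2 := (mem_zeroLocus_iff.mp hy) (X 0 - MvPolynomial.C c) (by
          rw [mem_vanishingIdeal_iff]
          rintro _ ⟨x, hx, rfl⟩
          simp [hc x hx])
        have h3 : y 0 - c = 0 := by simpa using h2
        exact sub_eq_zero.1 h3))
    refine h1.subset ?_
    rintro x ⟨hx, h2, h3⟩
    refine ⟨hx, ⟨fun a => ?_, h3 0 1, h3 0 2⟩, trivial⟩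
    fin_cases a
    · exact h2 0
    · exact h2 1
    · exact h2 2

/-- the points on special subvarieties of dimension `< n / 2` which are not exceptional -/
theorem low_fin (h : GP W) (hn : 2 ≤ n) : ∃ (K : ℕ) (S : Set ℕ), 0 < K ∧ Sparse K S ∧ ∀ ε : ℝ, 0 < ε →
    {x ∈ W | (∃ Z, Pool.Agent.Hhelper14.ZPL.IsSpecial Z ∧ x ∈ Z ∧
      ((2 : ℕ) : WithBot ℕ∞) * Pool.Agent.Hhelper14.ZPL.dim Z < n) ∧
      ¬ ((∀ k, NCM (x k)) ∧
        (∀ i : Fin 5 → Fin n, Function.Injective i → ¬ ∀ a b, HeckeRel (x (i a)) (x (i b))) ∧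
        (∃ i : Fin 3 → Fin n, Function.Injective i ∧ ∀ a b, HeckeRel (x (i a)) (x (i b))) ∧
        ∀ i : Fin 3 → Fin n, Function.Injective i → (∀ a b, HeckeRel (x (i a)) (x (i b))) →
          Exc S ε (fun a => x (i a)))}.Finite := by
  classical
  obtain ⟨ht3, ht4⟩ := gp_t34 h
  obtain ⟨K, S, hK, hS, hf⟩ := exc_C h
  refine ⟨K, S, hK, hS, fun ε hε => ?_⟩
  have f1 := hf ε hε
  have f5 : (⋃ i : {i : Fin 5 → Fin n // Function.Injective i},
      {x ∈ W | (∀ a, NCM (x (i.1 a))) ∧ ∀ a b, HeckeRel (x (i.1 a)) (x (i.1 b))}).Finite :=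
    Set.finite_iUnion fun i => five h i.2
  have f3 : (⋃ i : {i : Fin 3 → Fin n // Function.Injective i},
      {x ∈ W | NCM (x (i.1 0)) ∧ NCM (x (i.1 1)) ∧ HeckeRel (x (i.1 0)) (x (i.1 1)) ∧
        IsCMVal (x (i.1 2))}).Finite :=
    Set.finite_iUnion fun i => ht3 i.1 i.2
  have f4 : (⋃ i : {i : Fin 2 → Fin n // Function.Injective i},
      {x ∈ W | IsCMVal (x (i.1 0)) ∧ IsCMVal (x (i.1 1))}).Finite :=
    Set.finite_iUnion fun i => ht4 i.1 i.2
  refine (f1.union (f5.union (f3.union f4))).subset ?_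
  rintro x ⟨hxV, ⟨Z, hZ, hxZ, hd⟩, hne⟩
  by_contra hcon
  simp only [Set.mem_union, not_or] at hcon
  obtain ⟨g1, g5, g3, g4⟩ := hcon
  have k3 : ∀ i : Fin 3 → Fin n, Function.Injective i → ¬ (NCM (x (i 0)) ∧ NCM (x (i 1)) ∧
      HeckeRel (x (i 0)) (x (i 1)) ∧ IsCMVal (x (i 2))) := fun i hi h' =>
    g3 (Set.mem_iUnion.mpr ⟨⟨i, hi⟩, hxV, h'⟩)
  have k4 : ∀ i : Fin 2 → Fin n, Function.Injective i → ¬ (IsCMVal (x (i 0)) ∧ IsCMVal (x (i 1))) :=
    fun i hi h' => g4 (Set.mem_iUnion.mpr ⟨⟨i, hi⟩, hxV, h'⟩)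
  have htri : ∃ i : Fin 3 → Fin n, Function.Injective i ∧ (∀ a, NCM (x (i a))) ∧
      ∀ a b, HeckeRel (x (i a)) (x (i b)) := by
    rcases ZV.typ_low (k := 2) le_rfl hn hZ hd hxZ with ⟨i, hi, h'⟩ | ⟨i, hi, h'⟩ | ⟨i, hi, h'⟩
    · exact ⟨i, hi, h'⟩
    · exact absurd h' (k3 i hi)
    · exact absurd h' (k4 i hi)
  obtain ⟨i, hi, hN, hI⟩ := htri
  have hall : ∀ k, NCM (x k) := by
    intro k
    rw [ncm_iff]
    intro hcm
    by_cases hk : k = i 0 ∨ k = i 1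
    · rcases hk with rfl | rfl
      · exact (ncm_iff.mp (hN 0)) hcm
      · exact (ncm_iff.mp (hN 1)) hcm
    · rw [not_or] at hk
      refine k3 ![i 0, i 1, k] ?_ ⟨hN 0, hN 1, hI 0 1, hcm⟩
      have h01 := hi.ne (show (0 : Fin 3) ≠ 1 by decide)
      obtain ⟨hk0, hk1⟩ := hk
      intro a b hab
      fin_cases a <;> fin_cases b <;> simp_all [eq_comm]
  refine hne ⟨hall, fun j hj h5 => ?_, ⟨i, hi, hI⟩, fun j hj h3 => ?_⟩
  · exact g5 (Set.mem_iUnion.mpr ⟨⟨j, hj⟩, hxV, fun a => hall _, h5⟩)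
  · by_contra hE
    exact g1 ⟨hxV, j, hj, ⟨fun a => hall _, h3 0 1, h3 0 2⟩, hE⟩

private theorem low_ne_univ (hn : 2 ≤ n) {Z : Set (Fin n → ℂ)}
    (hd : ((2 : ℕ) : WithBot ℕ∞) * Pool.Agent.Hhelper14.ZPL.dim Z < n) : Z ≠ Set.univ := by
  rintro rfl
  rw [dim_univ, Fintype.card_fin] at hd
  have h2 : 2 * n < n := by exact_mod_cast hd
  omega

/-- **every curve over `ℂ`, special subvarieties of dimension `< n / 2`** -/
theorem main_sm (hW : Pool.Agent.Hhelper14.ZPL.IsIrredClosed W) (hdim : Pool.Agent.Hhelper14.ZPL.dim W = 1)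
    (hn : 2 ≤ n) : ∃ (K : ℕ) (S : Set ℕ), 0 < K ∧ Sparse K S ∧ ∀ ε : ℝ, 0 < ε →
    ∃ F : Set (Set (Fin n → ℂ)), F.Finite ∧
      (∀ T ∈ F, Pool.Agent.Hhelper14.ZP.IsSpecial T ∧ T ≠ Set.univ) ∧
      ∀ Z, Pool.Agent.Hhelper14.ZP.IsSpecial Z →
        ((2 : ℕ) : WithBot ℕ∞) * Pool.Agent.Hhelper14.ZP.dim Z < n →
          ∀ C, Pool.Agent.Hhelper14.ZP.IsComponent C (W ∩ Z) → (∃ T ∈ F, C ⊆ T) ∨
            (n : WithBot ℕ∞) ≤ ((4 : ℕ) : WithBot ℕ∞) * Pool.Agent.Hhelper14.ZP.dim Z ∧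
            ∃ x : Fin n → ℂ, C = {x} ∧ (∀ k, NCM (x k)) ∧
              (∀ i : Fin 5 → Fin n, Function.Injective i → ¬ ∀ a b, HeckeRel (x (i a)) (x (i b))) ∧
              (∃ i : Fin 3 → Fin n, Function.Injective i ∧ ∀ a b, HeckeRel (x (i a)) (x (i b))) ∧
              ∀ i : Fin 3 → Fin n, Function.Injective i → (∀ a b, HeckeRel (x (i a)) (x (i b))) →
                Exc S ε (fun a => x (i a)) := by
  classical
  by_cases h0 : ∃ T₀ : Set (Fin n → ℂ), Pool.Agent.Hhelper14.ZPL.IsSpecial T₀ ∧ T₀ ≠ Set.univ ∧ W ⊆ T₀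
  · obtain ⟨T₀, hT, hne, hVT⟩ := h0
    refine ⟨1, ∅, one_pos, sp_empty, fun ε _ => ⟨{T₀}, Set.finite_singleton _, ?_, ?_⟩⟩
    · intro T hTT
      rw [Set.mem_singleton_iff] at hTT
      rw [hTT]
      exact ⟨hT, hne⟩
    · intro Z _ _ C hC
      exact Or.inl ⟨T₀, rfl, fun x hx => hVT (hC.2.1 hx).1⟩
  · have hG : GP W := by
      refine ⟨hW, hdim, fun a b hab g hg => ?_, fun a c hc => ?_⟩
      · by_contra hcon
        push Not at hcon
        exact h0 (ZG.sub_of_mod hab g hg hcon)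
      · by_contra hcon
        push Not at hcon
        obtain ⟨τ, hτ, hck⟩ := hc
        refine h0 ⟨_, special_const a hτ, ?_, fun x hx => ?_⟩
        · intro hu
          have h3 : (fun _ => jInv τ + 1) ∈ {x : Fin n → ℂ | x a = jInv τ} := by
            rw [hu]
            exact Set.mem_univ _
          have h4 : jInv τ + 1 = jInv τ := h3
          simp at h4
        · show x a = jInv τ
          rw [hcon x hx, hck]
    obtain ⟨K, S, hK, hS, hf⟩ := low_fin hG hn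
    refine ⟨K, S, hK, hS, fun ε hε => ?_⟩
    have hfin := hf ε hε
    set A : Set (Fin n → ℂ) := {x ∈ W | (∃ Z, Pool.Agent.Hhelper14.ZPL.IsSpecial Z ∧ x ∈ Z ∧
      ((2 : ℕ) : WithBot ℕ∞) * Pool.Agent.Hhelper14.ZPL.dim Z < n) ∧
      ¬ ((∀ k, NCM (x k)) ∧
        (∀ i : Fin 5 → Fin n, Function.Injective i → ¬ ∀ a b, HeckeRel (x (i a)) (x (i b))) ∧
        (∃ i : Fin 3 → Fin n, Function.Injective i ∧ ∀ a b, HeckeRel (x (i a)) (x (i b))) ∧
        ∀ i : Fin 3 → Fin n, Function.Injective i → (∀ a b, HeckeRel (x (i a)) (x (i b))) →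
          Exc S ε (fun a => x (i a)))} with hA
    have hch : ∀ x : A, ∃ Z, Pool.Agent.Hhelper14.ZPL.IsSpecial Z ∧ x.1 ∈ Z ∧
        ((2 : ℕ) : WithBot ℕ∞) * Pool.Agent.Hhelper14.ZPL.dim Z < n := fun x => x.2.2.1
    choose Z hZs hxZ hZd using hch
    have hfin' : Finite A := hfin
    refine ⟨Set.range Z, Set.finite_range Z, ?_, ?_⟩
    · rintro _ ⟨x, rfl⟩
      exact ⟨hZs x, low_ne_univ hn (hZd x)⟩
    · intro Y hY hYd C hC
      have hY' : Pool.Agent.Hhelper14.ZPL.IsSpecial Y := hY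
      have hYd' : ((2 : ℕ) : WithBot ℕ∞) * Pool.Agent.Hhelper14.ZPL.dim Y < n := hYd
      have hC' : Pool.Agent.Hhelper14.ZPL.IsIrredClosed C := hC.1
      obtain ⟨c, hc⟩ := dim_eq_nat hC'
      have hCV : C ⊆ W := fun x hx => (hC.2.1 hx).1
      have hCY : C ⊆ Y := fun x hx => (hC.2.1 hx).2
      have h4 : Pool.Agent.Hhelper14.ZPL.dim C ≤ Pool.Agent.Hhelper14.ZPL.dim W :=
        Pool.Agent.Hhelper14.ZPL.dim_mono hCV
      rw [hc, hdim] at h4
      have h5' : c ≤ 1 := by exact_mod_cast h4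
      by_cases hc1 : c = 1
      · exfalso
        have h6 : C = W := by
          refine eq_of_dim_le hC' hW hCV ?_
          rw [hdim, hc, hc1]
          exact le_rfl
        exact h0 ⟨Y, hY', low_ne_univ hn hYd', h6 ▸ hCY⟩
      · have hc0 : c = 0 := by omega
        obtain ⟨x, hx⟩ := irred_nonempty hC'
        have hCx : C = {x} := by
          refine Set.eq_singleton_iff_unique_mem.mpr ⟨hx, fun y hy => ?_⟩
          by_contra hxy
          have h9 := one_le_dim hC' hx hy (fun h => hxy h.symm)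
          rw [hc, hc0] at h9
          have h10 : 1 ≤ 0 := by exact_mod_cast h9
          omega
        by_cases hex : ((∀ k, NCM (x k)) ∧
            (∀ i : Fin 5 → Fin n, Function.Injective i → ¬ ∀ a b, HeckeRel (x (i a)) (x (i b))) ∧
            (∃ i : Fin 3 → Fin n, Function.Injective i ∧ ∀ a b, HeckeRel (x (i a)) (x (i b))) ∧
            ∀ i : Fin 3 → Fin n, Function.Injective i → (∀ a b, HeckeRel (x (i a)) (x (i b))) →
              Exc S ε (fun a => x (i a)))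
        · refine Or.inr ⟨?_, x, hCx, hex⟩
          by_contra hlt
          rw [not_le] at hlt
          rcases ZV.typ_low (k := 4) (by norm_num) hn hY' hlt (hCY hx) with
            ⟨i, hi, h'⟩ | ⟨i, hi, h'⟩ | ⟨i, hi, h'⟩
          · exact hex.2.1 i hi h'.2
          · exact (ncm_iff.mp (hex.1 (i 2))) h'.2.2.2
          · exact (ncm_iff.mp (hex.1 (i 0))) h'.1
        · have hxA : x ∈ A := ⟨hCV hx, ⟨Y, hY', hCY hx, hYd'⟩, hex⟩
          refine Or.inl ⟨Z ⟨x, hxA⟩, ⟨_, rfl⟩, ?_⟩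
          rw [hCx]
          exact Set.singleton_subset_iff.mpr (hxZ ⟨x, hxA⟩)

end Pool.Agent.LGO.SM
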