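import Mathlib
import Pool.Agent.LGO.F3.Short
import Pool.Agent.LGO.F.Tri
import Pool.Agent.LGO.F.JInt
import Pool.Agent.LGO.PC.HtBd

/-!
# LGO/SM: the heights of an isogenous pair and the divisors of the degree

`mid_all`: if `x a`, `x b` are isogenous without complex multiplication, of minimal degree `N`, and `e` divides `N`, then
every coordinate of `x` has height at most `C D ^ 3 max(e, N / e)`, up to finitely many points.

PROOF.  If the two coordinates have a common pole: `√N` (`CP.cp_main`).  Otherwise let `z` be the curve between `x a` and `x b` at the distance `e` from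
`x a`.  At a place where `z` is large one of `x a`, `x b` is bounded, and `z` is isogenous to it, of degree `e` or `N / e`: the height of `z` is at most
`max(e, N / e)`.  The heights of isogenous curves are about the same (`ht_bd`).
-/

namespace Pool.Agent.LGO.SM

open UpperHalfPlane MvPolynomial Pool.Agent.Hhelper14.ZP Pool.Agent.Hhelper14.ZPL Pool.Agent.LGO
  Pool.Agent.LGO.PA Pool.Agent.LGO.F

variable {n : ℕ} {V : Set (Fin n → ℂ)}

/-- a polynomial with integral coefficients at small arguments -/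
private theorem Mid_poly {p : ℕ} [Fact p.Prime] (g : MvPolynomial (Fin 3) ℤ) (w : Fin 3 → ℂ_[p])
    {r : ℝ} (hr0 : 0 ≤ r) (hr : r ≤ 1) (hw : ∀ a, ‖w a‖ ≤ r) :
    ‖aeval w g - ((constantCoeff g : ℤ) : ℂ_[p])‖ ≤ r ∧ ‖(aeval w g : ℂ_[p])‖ ≤ 1 := by
  induction g using MvPolynomial.induction_on with
  | C a =>
    rw [algHom_C, constantCoeff_C]
    simp only [eq_intCast, sub_self, norm_zero]
    exact ⟨hr0, Pool.Agent.Hhelper14.ZP.norm_intCast_le a⟩
  | add P Q hP hQ =>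
    rw [map_add, map_add]
    constructor
    · have h1 : aeval w P + aeval w Q - ((constantCoeff P + constantCoeff Q : ℤ) : ℂ_[p]) =
          (aeval w P - ((constantCoeff P : ℤ) : ℂ_[p])) + (aeval w Q - ((constantCoeff Q : ℤ) : ℂ_[p])) := by
        push_cast
        ring
      rw [h1]
      exact (IsUltrametricDist.norm_add_le_max _ _).trans (max_le hP.1 hQ.1)
    · exact (IsUltrametricDist.norm_add_le_max _ _).trans (max_le hP.2 hQ.2)
  | mul_X P b hP =>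
    rw [map_mul, map_mul, aeval_X, constantCoeff_X, mul_zero, Int.cast_zero, sub_zero, norm_mul]
    have h1 : ‖(aeval w P : ℂ_[p])‖ * ‖w b‖ ≤ 1 * r :=
      mul_le_mul hP.2 (hw b) (norm_nonneg _) zero_le_one
    rw [one_mul] at h1
    exact ⟨h1, h1.trans hr⟩

/-- `z` is isogenous to `x` and `y` of degrees at most `m` -/
private theorem Mid_fin {p : ℕ} [Fact p.Prime] (φ : ℂ →+* ℂ_[p]) {g : MvPolynomial (Fin 3) ℤ}
    {x y z : ℂ} {m : ℕ} (hx : ∃ N, 0 < N ∧ IsogDeg N z x)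
    (hy : ∃ N, 0 < N ∧ IsogDeg N z y) (hmx : mdeg z x ≤ m) (hmy : mdeg z y ≤ m)
    (hg : aeval (fun a => ((![x, y, y] : Fin 3 → ℂ) a)⁻¹) g = 0) :
    ‖(((constantCoeff g).natAbs ^ m : ℕ) : ℂ_[p])‖ * max 1 ‖φ z‖ ≤ 1 := by
  set c := (constantCoeff g).natAbs with hc
  have hc1 : ‖((c ^ m : ℕ) : ℂ_[p])‖ ≤ 1 := Pool.Agent.Hhelper14.ZP.norm_natCast_le _
  rcases le_or_gt ‖φ z‖ 1 with h1 | h1
  · rw [max_eq_left h1, mul_one]
    exact hc1
  rw [max_eq_right h1.le]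
  obtain ⟨q, hq0, hq1, hq⟩ := jP_surj h1
  obtain ⟨a, d, q', ha, hd, had, hq'0, hq'1, hpow, hxq⟩ := CP.tate_pair φ hx hq0 hq1 hq.symm
  obtain ⟨a', d', q'', ha', hd', had', hq''0, hq''1, hpow', hyq⟩ := CP.tate_pair φ hy hq0 hq1 hq.symm
  have hnz : ‖φ z‖ = ‖q‖⁻¹ := by rw [← hq, jP_norm hq0 hq1]
  have hnx : ‖φ x‖ = ‖q'‖⁻¹ := by rw [hxq, jP_norm hq'0 hq'1]
  have hny : ‖φ y‖ = ‖q''‖⁻¹ := by rw [hyq, jP_norm hq''0 hq''1]
  -- the polynomial
  have hw : ∀ b, ‖φ (((![x, y, y] : Fin 3 → ℂ) b)⁻¹)‖ ≤ max ‖q'‖ ‖q''‖ := by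
    intro b
    fin_cases b
    · simp only [Fin.zero_eta, Matrix.cons_val_zero]
      rw [map_inv₀, norm_inv, hnx, inv_inv]
      exact le_max_left _ _
    · simp only [Fin.mk_one, Matrix.cons_val_one, Matrix.cons_val_zero]
      rw [map_inv₀, norm_inv, hny, inv_inv]
      exact le_max_right _ _
    · simp only [Fin.reduceFinMk, Matrix.cons_val]
      rw [map_inv₀, norm_inv, hny, inv_inv]
      exact le_max_right _ _
  have h2 := (Mid_poly g (fun b => φ (((![x, y, y] : Fin 3 → ℂ) b)⁻¹)) (le_max_of_le_left hq'0.le)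
    (max_le hq'1.le hq''1.le) hw).1
  have h3 : aeval (fun b => φ (((![x, y, y] : Fin 3 → ℂ) b)⁻¹)) g = (0 : ℂ_[p]) := by
    have h4 : φ (aeval (fun a => ((![x, y, y] : Fin 3 → ℂ) a)⁻¹) g) =
        aeval (fun b => φ (((![x, y, y] : Fin 3 → ℂ) b)⁻¹)) g := by
      have := (MvPolynomial.map_aeval (fun a => ((![x, y, y] : Fin 3 → ℂ) a)⁻¹) φ g)
      rw [this, aeval_def]
      simp only [coe_eval₂Hom]
      congr 1
      exact RingHom.ext_int _ _
    rw [← h4, hg, map_zero]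
  rw [h3, zero_sub, norm_neg] at h2
  have h4 : ‖(c : ℂ_[p])‖ ≤ max ‖q'‖ ‖q''‖ := by
    refine le_trans (le_of_eq ?_) h2
    have h5 : ((c : ℤ) : ℂ_[p]) = ((constantCoeff g : ℤ) : ℂ_[p]) ∨
        ((c : ℤ) : ℂ_[p]) = -((constantCoeff g : ℤ) : ℂ_[p]) := by
      rcases Int.natAbs_eq (constantCoeff g) with h6 | h6
      · left
        rw [hc]
        exact_mod_cast congrArg (fun z : ℤ => (z : ℂ_[p])) h6.symm
      · right
        rw [hc, ← Int.cast_neg]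
        congr 1
        omega
    rcases h5 with h5 | h5
    · rw [← h5, Int.cast_natCast]
    · have h6 := congrArg norm h5
      rw [norm_neg, Int.cast_natCast] at h6
      exact h6
  -- the inequality for `q`
  have hcn : 0 ≤ ‖(c : ℂ_[p])‖ := norm_nonneg _
  have hc1' : ‖(c : ℂ_[p])‖ ≤ 1 := Pool.Agent.Hhelper14.ZP.norm_natCast_le _
  have key : ∀ (A B : ℕ) (r : ℂ_[p]), 0 < A → 0 < B → A * B ≤ m → r ^ B = q ^ A →
      ‖(c : ℂ_[p])‖ ≤ ‖r‖ → ‖(c : ℂ_[p])‖ ^ m ≤ ‖q‖ := by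
    intro A B r hA hB hAB hr hcr
    have h7 : ‖(c : ℂ_[p])‖ ^ B ≤ ‖q‖ ^ A := by
      rw [← norm_pow q, ← hr, norm_pow]
      exact pow_le_pow_left₀ hcn hcr B
    have h8 : B ≤ m := (Nat.le_mul_of_pos_left B hA).trans hAB
    calc ‖(c : ℂ_[p])‖ ^ m ≤ ‖(c : ℂ_[p])‖ ^ B := pow_le_pow_of_le_one hcn hc1' h8
      _ ≤ ‖q‖ ^ A := h7
      _ ≤ ‖q‖ := pow_le_of_le_one hq0.le hq1.le hA.ne'
  have h5 : ‖(c : ℂ_[p])‖ ^ m ≤ ‖q‖ := by
    rcases le_total ‖q'‖ ‖q''‖ with h6 | h6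
    · rw [max_eq_right h6] at h4
      exact key a' d' q'' ha' hd' (by rw [had']; exact hmy) hpow' h4
    · rw [max_eq_left h6] at h4
      exact key a d q' ha hd (by rw [had]; exact hmx) hpow h4
  rw [Nat.cast_pow, norm_pow, hnz]
  rw [← div_eq_mul_inv, div_le_one hq0]
  exact h5

/-- the bound for the pair `a`, `b` and the coordinate `c` -/
def MidBd (V : Set (Fin n → ℂ)) (a b c : Fin n) : Prop :=
  ∃ (C : ℕ) (E : Set (Fin n → ℂ)), 1 ≤ C ∧ E.Finite ∧ ∀ x ∈ V, x ∉ E →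
    ∀ (K : IntermediateField ℚ ℂ) [FiniteDimensional ℚ K], x a ∈ K → x b ∈ K → x c ∈ K →
      NCM (x a) → (∃ N, 0 < N ∧ IsogDeg N (x a) (x b)) → ∀ e : ℕ, e ∣ mdeg (x a) (x b) →
        Bd K (C * (Module.finrank ℚ K : ℝ) ^ 3 * (max e (mdeg (x a) (x b) / e) : ℕ)) (x c)

theorem sqrt_le_max {N e : ℕ} (he : e ∣ N) : √(N : ℝ) ≤ (max e (N / e) : ℕ) := by
  rw [Real.sqrt_le_left (Nat.cast_nonneg _)]
  have h1 : N = e * (N / e) := (Nat.mul_div_cancel' he).symm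
  have h2 : N ≤ max e (N / e) ^ 2 := by
    calc N = e * (N / e) := h1
      _ ≤ max e (N / e) * max e (N / e) := Nat.mul_le_mul (le_max_left _ _) (le_max_right _ _)
      _ = _ := (sq _).symm
  exact_mod_cast h2

/-- **the heights of an isogenous pair** -/
theorem mid_all (h : Pool.Agent.LGO.ZV.Crv V) {a b : Fin n} (hab : a ≠ b) (c : Fin n) :
    MidBd V a b c := by
  rcases CP.cp_main h.irr h.kcl h.dim hab (h.nc a) (h.nc b) (h.nomod a b hab) with ⟨C₁, hC₁⟩ | h1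
  swap
  · obtain ⟨C, E, hC, hE, h2⟩ := h1 c
    refine ⟨C, E, hC, hE, fun x hx hxE K _ ha hb hc _ hN e he => (h2 x hx hxE K ha hb hc hN).mono ?_⟩
    have h5 := sqrt_le_max he
    have hD1 : (1 : ℝ) ≤ Module.finrank ℚ K := by
      exact_mod_cast Module.finrank_pos (R := ℚ) (M := K)
    have h6 : (Module.finrank ℚ K : ℝ) ^ 2 ≤ (Module.finrank ℚ K : ℝ) ^ 3 :=
      pow_le_pow_right₀ hD1 (by norm_num)
    gcongr
  -- no common pole
  rcases inf3 h.irr h.kcl h.dim ![a, b, b] with ⟨Q, hQ0, hQ⟩ | ⟨P, hP, hlim⟩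
  swap
  · exfalso
    have ha := hlim 0
    have hb := hlim 1
    simp only [Matrix.cons_val_zero, Matrix.cons_val_one] at ha hb
    obtain ⟨k, hk⟩ := ((ha.eventually_gt_atTop (C₁ : ℝ)).and (hb.eventually_gt_atTop (C₁ : ℝ))).exists
    rcases hC₁ (P k) (hP k) (RingEquiv.refl ℂ) with h2 | h2
    · exact absurd h2 (not_le.mpr hk.1)
    · exact absurd h2 (not_le.mpr hk.2)
  let B : Set (Fin 3 → ℂ) := {y | ∃ x ∈ V, (∃ N, 0 < N ∧ IsogDeg N (x a) (x b)) ∧ x a ≠ 0 ∧ x b ≠ 0 ∧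
    y = fun k => (x ((![a, b, b] : Fin 3 → Fin n) k))⁻¹}
  have hBalg : ∀ y ∈ B, ∀ k, IsAlgebraic ℚ (y k) := by
    rintro _ ⟨x, hx, hN, -, -, rfl⟩ k
    exact (PW.alg_of_isog h.irr h.kcl h.dim hab (h.nomod a b hab) hx hN _).inv
  have hBQ : ∀ y ∈ B, eval y Q = 0 := by
    rintro _ ⟨x, hx, -, ha, hb, rfl⟩
    refine hQ x hx fun k => ?_
    fin_cases k
    · exact ha
    · exact hb
    · exact hb
  obtain ⟨g, hg0, hg⟩ := Pool.Agent.ZPB.exists_int_poly hBalg hQ0 hBQ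
  obtain ⟨C₂, hC₂, hlog⟩ := log_le
  obtain ⟨C₃, E, hE, hts⟩ := ZV.hts_v h.irr h.kcl h.dim a (h.nc a)
  obtain ⟨Ch, hCh, hht⟩ := PC.ht_bd
  set m₀ := (constantCoeff g).natAbs with hm
  have hm0 : 0 < m₀ := Int.natAbs_pos.mpr hg0
  set A : ℝ := (C₁ : ℝ) + C₂ * (1 + Real.log (1 + C₁)) with hA
  have hC₁0 : (0 : ℝ) ≤ C₁ := Nat.cast_nonneg _
  have hl0 : 0 ≤ Real.log (1 + (C₁ : ℝ)) := Real.log_nonneg (by linarith)
  have hlm : 0 ≤ Real.log m₀ := Real.log_nonneg (by exact_mod_cast hm0)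
  have hA0 : 0 ≤ A := by
    rw [hA]
    positivity
  set C : ℝ := (C₃ : ℝ) * (1 + Ch * (A + Real.log m₀ + 2)) with hC
  have hC0 : 0 ≤ C := by
    rw [hC]
    positivity
  refine ⟨⌈C⌉₊ + 1, E ∪ ({x ∈ V | x a = 0} ∪ {x ∈ V | x b = 0}), by omega,
    hE.union ((h.fib a 0).union (h.fib b 0)), ?_⟩
  intro x hx hxE K _ haK hbK hcK hNCM hN e he
  have ha0 : x a ≠ 0 := fun h0 => hxE (Or.inr (Or.inl ⟨hx, h0⟩))
  have hb0 : x b ≠ 0 := fun h0 => hxE (Or.inr (Or.inr ⟨hx, h0⟩))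
  have hNpos : 0 < mdeg (x a) (x b) := mdeg_pos hN
  have hepos : 0 < e := Nat.pos_of_dvd_of_pos he hNpos
  set D : ℝ := (Module.finrank ℚ K : ℝ) with hD
  have hD1 : 1 ≤ D := by
    rw [hD]
    exact_mod_cast Module.finrank_pos (R := ℚ) (M := K)
  have halg : IsAlgebraic ℚ (x a) := PW.alg_of_isog h.irr h.kcl h.dim hab (h.nomod a b hab) hx hN _
  -- the curve in the middle
  obtain ⟨z, hzK, hzx, hzy, hzN, hz1, hz2⟩ : ∃ z : ℂ, z ∈ K ∧ (∃ N, 0 < N ∧ IsogDeg N z (x a)) ∧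
      (∃ N, 0 < N ∧ IsogDeg N z (x b)) ∧ NCM z ∧ mdeg z (x a) = e ∧
      mdeg z (x b) = mdeg (x a) (x b) / e := by
    obtain ⟨τ, hτ⟩ := j_surj (x a)
    rw [← hτ] at halg hNCM hN haK hNpos he ⊢
    have hcm : NonCM (τ : ℂ) := (ncm_jInv τ).1 hNCM
    obtain ⟨a', b', hcop, hJ⟩ := exists_of_mdeg hcm hN
    have hcopd : Cop e a' b' := hcop.of_dvd he
    obtain ⟨x', hJ'⟩ := exists_isJ (τ := τ) hepos hcopd
    have h1 : mdeg (jInv τ) x' = e := hJ'.mdeg hcm hepos hcopd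
    have hIx' : ∃ N, 0 < N ∧ IsogDeg N (jInv τ) x' := ⟨e, hepos, hJ'.isog hepos hcopd⟩
    have hIx'y : ∃ N, 0 < N ∧ IsogDeg N x' (x b) := by
      obtain ⟨N, hN0, h⟩ := hN
      exact ⟨e * N, Nat.mul_pos hepos hN0, (hJ'.isog hepos hcopd).symm.trans hN0 h⟩
    have h2 : mdeg x' (x b) * e = mdeg (jInv τ) (x b) := by
      have h3 := mdeg_isJ hcm hepos hNpos hcopd hcop hJ' hJ
      rw [sub_self, Int.natAbs_zero, Nat.gcd_zero_right, Nat.gcd_eq_left he] at h3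
      have h4 : e * (mdeg x' (x b) * e) = e * mdeg (jInv τ) (x b) := by
        rw [← h3]
        ring
      exact Nat.eq_of_mul_eq_mul_left hepos h4
    have hx'K : x' ∈ K := mid_mem K haK hbK hNCM halg hN hIx' (by rw [h1, mul_comm]; exact h2)
    refine ⟨x', hx'K, ⟨e, hepos, (hJ'.isog hepos hcopd).symm⟩, hIx'y,
      NCM.of_isog hepos (hJ'.isog hepos hcopd) hNCM, ?_, ?_⟩
    · rw [mdeg_symm]
      exact h1
    · rw [← h2, Nat.mul_div_cancel _ hepos]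
  set m : ℕ := max e (mdeg (x a) (x b) / e) with hmdef
  have hmpos : 0 < m := lt_of_lt_of_le hepos (le_max_left _ _)
  have hm1 : (1 : ℝ) ≤ m := by exact_mod_cast hmpos
  have hz1' : mdeg z (x a) ≤ m := by rw [hz1]; exact le_max_left _ _
  have hz2' : mdeg z (x b) ≤ m := by rw [hz2]; exact le_max_right _ _
  obtain ⟨-, hi1⟩ := mdeg_spec hzx
  obtain ⟨-, hi2⟩ := mdeg_spec hzy
  have hp1 := mdeg_pos hzx
  have hp2 := mdeg_pos hzy
  -- the height of `z`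
  have hgx : aeval (fun k => ((![x a, x b, x b] : Fin 3 → ℂ) k)⁻¹) g = 0 := by
    have h2 := hg (fun k => (x ((![a, b, b] : Fin 3 → Fin n) k))⁻¹) ⟨x, hx, hN, ha0, hb0, rfl⟩
    have h3 : (fun k => ((![x a, x b, x b] : Fin 3 → ℂ) k)⁻¹) =
        fun k => (x ((![a, b, b] : Fin 3 → Fin n) k))⁻¹ := by
      funext k
      fin_cases k <;> rfl
    rw [h3]
    exact h2
  have key : ∀ (u : ℂ) (d : ℕ) (s : ℂ ≃+* ℂ), 0 < d → d ≤ m → IsogDeg d z u → ‖s u‖ ≤ C₁ →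
      Real.log ‖s z‖ ≤ A * m := by
    intro u d s hd hdm hi hu
    have h3 : IsogDeg d (s u) (s z) := (hi.symm).map (s : ℂ →+* ℂ) hd
    have h4 := hlog d (s u) (s z) hd h3
    refine h4.trans ?_
    have h5 : Real.log (1 + ‖s u‖) ≤ Real.log (1 + (C₁ : ℝ)) :=
      Real.log_le_log (by positivity) (by linarith)
    have hdm' : (d : ℝ) ≤ m := by exact_mod_cast hdm
    have h6 : 0 ≤ 1 + Real.log (1 + ‖s u‖) := by
      have : 0 ≤ Real.log (1 + ‖s u‖) := Real.log_nonneg (by linarith [norm_nonneg (s u)])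
      linarith
    calc C₂ * d * (1 + Real.log (1 + ‖s u‖)) ≤ C₂ * m * (1 + Real.log (1 + (C₁ : ℝ))) := by
          gcongr
      _ = (C₂ * (1 + Real.log (1 + (C₁ : ℝ)))) * m := by ring
      _ ≤ A * m := by
          refine mul_le_mul_of_nonneg_right ?_ (by linarith)
          rw [hA]
          linarith
  have hz0 : z ≠ 0 := hzN.ne_zero
  have hbd : Bd K (Module.finrank ℚ K * (A * m + (1 : ℕ) * Real.log ((m₀ ^ m : ℕ) : ℝ))) z := by
    refine PC.bd_of_loc K hzK (one_mem K) one_ne_zero (pow_pos hm0 m) one_pos ?_ ?_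
    · intro p _ φ
      rw [map_one, norm_one]
      exact Mid_fin φ hzx hzy hz1' hz2' hgx
    · intro s
      rw [map_one, norm_one, one_pow, mul_one]
      refine max_le (Real.one_le_exp (by positivity)) ?_
      have hpos : 0 < ‖s z‖ := norm_pos_iff.mpr ((map_ne_zero _).mpr hz0)
      rw [← Real.log_le_iff_le_exp hpos]
      rcases hC₁ x hx s with h2 | h2
      · exact key (x a) _ s hp1 hz1' hi1 h2
      · exact key (x b) _ s hp2 hz2' hi2 h2
  -- the height of `x a`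
  have hbx := hht K _ z (x a) hbd haK hzN hzx
  rw [hz1, ← hD, Nat.cast_one, one_mul, Nat.cast_pow, Real.log_pow] at hbx
  have hle : Real.log e ≤ m := by
    have h2 : (e : ℝ) ≤ m := by exact_mod_cast le_max_left _ _
    have h3 : (0 : ℝ) < e := by exact_mod_cast hepos
    have h4 := Real.log_le_sub_one_of_pos h3
    linarith
  have hbx' : Bd K (Ch * (A + Real.log m₀ + 2) * D ^ 2 * m) (x a) := by
    refine hbx.mono ?_
    have hDm : 1 ≤ D * m := one_le_mul_of_one_le_of_one_le hD1 hm1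
    have e1 : D * (A * m + m * Real.log m₀) + 1 + Real.log e ≤ (A + Real.log m₀ + 2) * (D * m) := by
      have : (m : ℝ) ≤ D * m := le_mul_of_one_le_left (by linarith) hD1
      nlinarith
    calc Ch * D * (D * (A * m + m * Real.log m₀) + 1 + Real.log e)
        ≤ Ch * D * ((A + Real.log m₀ + 2) * (D * m)) := by gcongr
      _ = _ := by ring
  have hxc : x ∉ E := fun h0 => hxE (Or.inl h0)
  obtain ⟨K', hKK', hfd, hrk, hall⟩ := hts x hx hxc K _ hbx'
  refine (bd_down (hall c) hcK).mono ?_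
  rw [← hD]
  have hD2m : 1 ≤ D ^ 2 * m := one_le_mul_of_one_le_of_one_le (one_le_pow₀ hD1) hm1
  have e1 : 1 + Ch * (A + Real.log m₀ + 2) * D ^ 2 * m ≤
      (1 + Ch * (A + Real.log m₀ + 2)) * (D ^ 2 * m) := by
    nlinarith
  calc (C₃ : ℝ) * D * (1 + Ch * (A + Real.log m₀ + 2) * D ^ 2 * m)
      ≤ C₃ * D * ((1 + Ch * (A + Real.log m₀ + 2)) * (D ^ 2 * m)) := by gcongr
    _ = C * D ^ 3 * m := by rw [hC]; ring
    _ ≤ ((⌈C⌉₊ + 1 : ℕ) : ℝ) * D ^ 3 * m := by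
        gcongr
        push_cast
        exact (Nat.le_ceil _).trans (by linarith)

end Pool.Agent.LGO.SM
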