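import Mathlib
import Pool.Agent.LGO.ZV.Main
import Pool.Agent.LGO.F.Sharp
import Pool.Agent.LGO.SM.Mid

/-!
# LGO/SM: two isogenous pairs on a curve in `ℂ⁴` over `Qb`, no condition at infinity

`ExcQ ε y`: the degrees `N 0 1` and `N 2 3` are comparable, `N 2 3 ≤ max(e, N 0 1 / e) ^ (2 + ε)` for every divisor `e` of `N 0 1` and the same with the pairs
exchanged, both are at least `1 / ε`, and the degree of the field of `y` is at most `N 0 1 ^ ε` and `N 2 3 ^ ε`.  `quad4`: all but finitely many points with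
two isogenous pairs are such.

PROOF.  `mid_all`: the heights are at most `C D ^ 3 m`, `m = max(e, N 0 1 / e)`; `sharpB`: `N 2 3 ≤ (C D) ^ C m ^ 2`.  So if `N 2 3 > m ^ (2 + ε)` then `m ≤ (C D) ^ C`.
The points with heights at most `(C D) ^ C` are finitely many.
-/

namespace Pool.Agent.LGO.SM

open UpperHalfPlane Pool.Agent.Hhelper14.ZP Pool.Agent.Hhelper14.ZPL Pool.Agent.LGO
  Pool.Agent.LGO.ZF Pool.Agent.LGO.ZG Pool.Agent.LGO.ZV Pool.Agent.LGO.PWG Pool.Agent.LGO.F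

variable {n : ℕ} {V : Set (Fin n → ℂ)}

/-- two isogenous pairs, not CM -/
def Iso22 (y : Fin 4 → ℂ) : Prop := (∀ a, NCM (y a)) ∧ HeckeRel (y 0) (y 1) ∧ HeckeRel (y 2) (y 3)

/-- the degree `M` of the other pair is bounded in terms of the divisors of the degree `N`, `N` is large, and the degree `D` of the field is small -/
def Cmp (ε : ℝ) (N M D : ℕ) : Prop :=
  1 / ε ≤ (N : ℝ) ∧ (∀ e : ℕ, e ∣ N → (M : ℝ) ≤ ((max e (N / e) : ℕ) : ℝ) ^ (2 + ε)) ∧ (D : ℝ) ≤ (N : ℝ) ^ ε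

/-- exceptional pairs -/
def ExcQ (ε : ℝ) (y : Fin 4 → ℂ) : Prop :=
  Cmp ε (mdeg (y 0) (y 1)) (mdeg (y 2) (y 3)) (Module.finrank ℚ (IntermediateField.adjoin ℚ (Set.range y))) ∧
    Cmp ε (mdeg (y 2) (y 3)) (mdeg (y 0) (y 1)) (Module.finrank ℚ (IntermediateField.adjoin ℚ (Set.range y)))

/-- **type 2** from the heights, for the points with a property `P` -/
theorem t2_on (h : ZV.Crv V) (i : Fin 4 → Fin n) (hi : Function.Injective i) (P : (Fin n → ℂ) → Prop) (C : ℕ)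
    {E : Set (Fin n → ℂ)} (hE : E.Finite)
    (hH : ∀ x ∈ V, x ∉ E → P x → (∀ a, NCM (x (i a))) → HeckeRel (x (i 0)) (x (i 1)) →
      HeckeRel (x (i 2)) (x (i 3)) → HB i C x) :
    {x ∈ V | P x ∧ (∀ a, NCM (x (i a))) ∧ HeckeRel (x (i 0)) (x (i 1)) ∧
      HeckeRel (x (i 2)) (x (i 3))}.Finite := by
  obtain ⟨C₂, hC₂⟩ := iso_q
  refine fin_v h (by omega) i (Q := Q2) (fun H H' hH x hx => ⟨hx.1.mono hH, hx.2.mono hH⟩)
    ((allFin_v h).f2 i hi)
    (fun x hx => hx.1) hE C (fun x hx hxE => hH x hx.1 hxE hx.2.1 hx.2.2.1 hx.2.2.2.1 hx.2.2.2.2) ?_ C₂ ?_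
  · intro x hx a
    exact PW.alg_of_isog h.irr h.kcl h.dim (hi.ne (by decide : (0 : Fin 4) ≠ 1))
      (h.nomod _ _ (hi.ne (by decide))) hx.1 (heckeRel_iff.mp hx.2.2.2.1) _
  · intro x hx hxE K _ M hM hK hb s
    exact ⟨hC₂ K M _ _ hM hK (hb _) (hb _) (hx.2.2.1 0) (hx.2.2.1 1) hx.2.2.2.1 s,
      hC₂ K M _ _ hM hK (hb _) (hb _) (hx.2.2.1 2) (hx.2.2.1 3) hx.2.2.2.2 s⟩

private theorem Quad_pow {m X ε : ℝ} {k : ℕ} (hm : 1 ≤ m) (hX : 1 ≤ X) (hε : 0 < ε) (hk : 1 ≤ k * ε)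
    (h : m ^ ε ≤ X) : m ≤ X ^ k := by
  have h1 : m = (m ^ ε) ^ (1 / ε) := by
    rw [← Real.rpow_mul (by linarith), mul_one_div_cancel hε.ne', Real.rpow_one]
  have h2 : (1 / ε) ≤ (k : ℝ) := by
    rw [div_le_iff₀ hε]
    exact hk
  calc m = (m ^ ε) ^ (1 / ε) := h1
    _ ≤ X ^ (1 / ε) := Real.rpow_le_rpow (by positivity) h (by positivity)
    _ ≤ X ^ (k : ℝ) := Real.rpow_le_rpow_of_exponent_le hX h2
    _ = X ^ k := Real.rpow_natCast X k

/-- a point which is not exceptional has a small `m` -/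
private theorem Quad_num {ε D : ℝ} {k C₀ Cs N M d : ℕ} (hε : 0 < ε) (hk1 : 1 ≤ k) (hk : 1 ≤ k * ε)
    (hC₀ : 1 ≤ C₀) (hD : 1 ≤ D) (hd : (d : ℝ) ≤ D) (hN : 0 < N)
    (hsharp : ∀ e : ℕ, e ∣ N → (M : ℝ) ≤
      ((Cs : ℝ) * D) ^ Cs * (C₀ * D ^ 3 * (max e (N / e) : ℕ)) ^ 2)
    (hne : ¬ Cmp ε N M d) :
    ∃ e : ℕ, e ∣ N ∧ ((max e (N / e) : ℕ) : ℝ) ≤
      ((((Cs + C₀ + 8) * k : ℕ) : ℝ) * D) ^ ((Cs + C₀ + 8) * k) := by
  set B : ℕ := Cs + C₀ + 8 with hB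
  set G : ℕ := B * k with hG
  have hB1 : (1 : ℝ) ≤ B := by
    have : 1 ≤ B := by omega
    exact_mod_cast this
  have hk1R : (1 : ℝ) ≤ k := by exact_mod_cast hk1
  have hBG : (B : ℝ) ≤ G := by
    exact_mod_cast Nat.le_mul_of_pos_right B hk1
  have hkG : k ≤ G := Nat.le_mul_of_pos_left k (by omega)
  have hkGR : (k : ℝ) ≤ G := by exact_mod_cast hkG
  have hG1 : (1 : ℝ) ≤ G := hB1.trans hBG
  have hGD : 1 ≤ (G : ℝ) * D := one_le_mul_of_one_le_of_one_le hG1 hD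
  have hBD : 1 ≤ (B : ℝ) * D := one_le_mul_of_one_le_of_one_le hB1 hD
  have hG0 : G ≠ 0 := by
    have : 1 ≤ G := hk1.trans hkG
    omega
  have hDG : D ≤ G * D := le_mul_of_one_le_left (by linarith) hG1
  -- the final step
  have fin1 : ∀ X m : ℝ, 1 ≤ m → 1 ≤ X → X ≤ (B * D) ^ B → m ^ ε ≤ X → m ≤ ((G : ℝ) * D) ^ G := by
    intro X m hm hX hXB hmX
    calc m ≤ X ^ k := Quad_pow hm hX hε hk hmX
      _ ≤ ((B * D) ^ B) ^ k := by gcongr
      _ = (B * D) ^ G := by rw [← pow_mul]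
      _ ≤ (G * D) ^ G := by gcongr
  have hDB : D ≤ (B * D) ^ B := by
    calc D ≤ B * D := le_mul_of_one_le_left (by linarith) hB1
      _ ≤ (B * D) ^ B := le_self_pow₀ hBD (by omega)
  rw [Cmp, not_and_or, not_and_or] at hne
  rcases hne with h1 | h1 | h1
  · refine ⟨1, one_dvd _, ?_⟩
    rw [not_le, lt_div_iff₀ hε] at h1
    have h2 : (N : ℝ) ≤ k := by
      by_contra h3
      rw [not_le] at h3
      have : (k : ℝ) * ε ≤ N * ε := by gcongr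
      linarith
    rw [Nat.div_one, max_eq_right (show 1 ≤ N from hN)]
    calc (N : ℝ) ≤ k := h2
      _ ≤ G := hkGR
      _ ≤ G * D := le_mul_of_one_le_right (by linarith) hD
      _ ≤ _ := le_self_pow₀ hGD hG0
  · push Not at h1
    obtain ⟨e, he, h2⟩ := h1
    refine ⟨e, he, ?_⟩
    have hepos : 0 < e := Nat.pos_of_dvd_of_pos he hN
    set m : ℝ := ((max e (N / e) : ℕ) : ℝ) with hm
    have hm1 : 1 ≤ m := by
      rw [hm]
      exact_mod_cast (show 1 ≤ max e (N / e) from le_max_of_le_left hepos)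
    have hm0 : 0 < m := by linarith
    have h3 := hsharp e he
    rw [← hm] at h3
    have h4 : m ^ (2 + ε) = m ^ 2 * m ^ ε := by
      rw [Real.rpow_add hm0]
      norm_cast
    have h5 : m ^ 2 * m ^ ε ≤ m ^ 2 * (((Cs : ℝ) * D) ^ Cs * (C₀ * D ^ 3) ^ 2) := by
      rw [← h4]
      refine (h2.le.trans h3).trans (le_of_eq ?_)
      ring
    have h6 : m ^ ε ≤ ((Cs : ℝ) * D) ^ Cs * (C₀ * D ^ 3) ^ 2 :=
      le_of_mul_le_mul_left h5 (by positivity)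
    have hC₀1 : (1 : ℝ) ≤ C₀ := by exact_mod_cast hC₀
    refine fin1 _ m hm1 ?_ ?_ h6
    · exact (Real.one_le_rpow hm1 hε.le).trans h6
    · have e1 : ((Cs : ℝ) * D) ^ Cs ≤ (B * D) ^ Cs := by
        have : (Cs : ℝ) ≤ B := by
          exact_mod_cast (show Cs ≤ B by omega)
        gcongr
      have e2 : (C₀ * D ^ 3) ^ 2 ≤ (B * D) ^ 6 := by
        have e3 : (C₀ : ℝ) ≤ B := by
          exact_mod_cast (show C₀ ≤ B by omega)
        have e4 : (C₀ : ℝ) ^ 2 ≤ (B : ℝ) ^ 6 := by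
          calc (C₀ : ℝ) ^ 2 ≤ (B : ℝ) ^ 2 := by gcongr
            _ ≤ (B : ℝ) ^ 6 := pow_le_pow_right₀ hB1 (by norm_num)
        calc (C₀ * D ^ 3) ^ 2 = (C₀ : ℝ) ^ 2 * D ^ 6 := by ring
          _ ≤ (B : ℝ) ^ 6 * D ^ 6 := by gcongr
          _ = _ := by ring
      calc ((Cs : ℝ) * D) ^ Cs * (C₀ * D ^ 3) ^ 2 ≤ (B * D) ^ Cs * (B * D) ^ 6 := by gcongr
        _ = (B * D) ^ (Cs + 6) := by rw [← pow_add]
        _ ≤ (B * D) ^ B := pow_le_pow_right₀ hBD (by omega)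
  · refine ⟨1, one_dvd _, ?_⟩
    rw [not_le] at h1
    rw [Nat.div_one, max_eq_right (show 1 ≤ N from hN)]
    exact fin1 D N (by exact_mod_cast hN) hD hDB (h1.le.trans hd)

/-- the heights from a small `m` -/
private theorem Quad_ht {D : ℝ} {C₀ G m : ℕ} (hD : 1 ≤ D) (hm : (m : ℝ) ≤ ((G : ℝ) * D) ^ G) :
    C₀ * D ^ 3 * m ≤ (((C₀ + G + 4 : ℕ) : ℝ) * D) ^ (C₀ + G + 4) := by
  set C : ℕ := C₀ + G + 4 with hC
  have hC1 : (1 : ℝ) ≤ C := by exact_mod_cast (show 1 ≤ C by omega)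
  have hCD : 1 ≤ (C : ℝ) * D := one_le_mul_of_one_le_of_one_le hC1 hD
  have h1 : (C₀ : ℝ) ≤ C * D := by
    calc (C₀ : ℝ) ≤ C := by exact_mod_cast (show C₀ ≤ C by omega)
      _ ≤ C * D := le_mul_of_one_le_right (by linarith) hD
  have h2 : D ≤ C * D := le_mul_of_one_le_left (by linarith) hC1
  have h3 : (G : ℝ) ≤ C := by exact_mod_cast (show G ≤ C by omega)
  calc C₀ * D ^ 3 * m ≤ C₀ * D ^ 3 * ((G : ℝ) * D) ^ G := by gcongr
    _ ≤ (C * D) * (C * D) ^ 3 * (C * D) ^ G := by gcongr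
    _ = (C * D) ^ (G + 4) := by ring
    _ ≤ (C * D) ^ C := pow_le_pow_right₀ hCD (by omega)

/-- **two isogenous pairs** -/
theorem quad4 {W : Set (Fin 4 → ℂ)} (h : ZV.Crv W) {ε : ℝ} (hε : 0 < ε) :
    {x ∈ W | Iso22 x ∧ ¬ ExcQ ε x}.Finite := by
  classical
  obtain ⟨k, hk⟩ := exists_nat_ge (1 / ε + 1)
  have hk1 : 1 ≤ k := by
    have : (1 : ℝ) ≤ k := by
      have : 0 < 1 / ε := by positivity
      linarith
    exact_mod_cast this
  have hkε : 1 ≤ k * ε := by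
    have h1 : 1 / ε ≤ k := by linarith
    rw [div_le_iff₀ hε] at h1
    exact h1
  obtain ⟨Cs, hCs, hsharp⟩ := sharpB
  have h01 : (0 : Fin 4) ≠ 1 := by decide
  have h23 : (2 : Fin 4) ≠ 3 := by decide
  choose C₁ E₁ hC₁ hE₁ hm1 using fun c => mid_all h h01 c
  choose C₂ E₂ hC₂ hE₂ hm2 using fun c => mid_all h h23 c
  set C₀ : ℕ := (∑ c, C₁ c) + ∑ c, C₂ c with hC₀
  have hle1 : ∀ c, C₁ c ≤ C₀ := fun c => by
    have := Finset.single_le_sum (f := C₁) (fun i _ => Nat.zero_le _) (Finset.mem_univ c)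
    omega
  have hle2 : ∀ c, C₂ c ≤ C₀ := fun c => by
    have := Finset.single_le_sum (f := C₂) (fun i _ => Nat.zero_le _) (Finset.mem_univ c)
    omega
  have hC₀1 : 1 ≤ C₀ := (hC₁ 0).trans (hle1 0)
  have hC₀1R : (1 : ℝ) ≤ C₀ := by exact_mod_cast hC₀1
  set E : Set (Fin 4 → ℂ) := (⋃ c, E₁ c) ∪ ⋃ c, E₂ c with hE
  have hEf : E.Finite := (Set.finite_iUnion hE₁).union (Set.finite_iUnion hE₂)
  set G : ℕ := (Cs + C₀ + 8) * k with hG
  have hfin := t2_on h id Function.injective_id (fun x => ¬ ExcQ ε x) (C₀ + G + 4) hEf (by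
    intro x hx hxE hne hN hI1 hI2 K hfd hK
    have hD1 : (1 : ℝ) ≤ Module.finrank ℚ K := by
      exact_mod_cast Module.finrank_pos (R := ℚ) (M := K)
    set D : ℝ := (Module.finrank ℚ K : ℝ) with hD
    have hxK : ∀ a, x a ∈ K := hK
    have hDK : (Module.finrank ℚ (IntermediateField.adjoin ℚ (Set.range x)) : ℝ) ≤ D := by
      have hle : IntermediateField.adjoin ℚ (Set.range x) ≤ K := by
        rw [IntermediateField.adjoin_le_iff]
        rintro _ ⟨a, rfl⟩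
        exact hxK a
      rw [hD]
      exact_mod_cast LinearMap.finrank_le_finrank_of_injective
        (f := (IntermediateField.inclusion hle).toLinearMap)
        (IntermediateField.inclusion hle).injective
    have hi1 := heckeRel_iff.mp hI1
    have hi2 := heckeRel_iff.mp hI2
    simp only [id] at hi1 hi2
    have hp1 := mdeg_pos hi1
    have hp2 := mdeg_pos hi2
    have hb1 : ∀ e : ℕ, e ∣ mdeg (x 0) (x 1) → ∀ c,
        Bd K (C₀ * D ^ 3 * (max e (mdeg (x 0) (x 1) / e) : ℕ)) (x c) := by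
      intro e he c
      refine (hm1 c x hx (fun h' => hxE (Or.inl (Set.mem_iUnion.mpr ⟨c, h'⟩))) K (hxK _) (hxK _)
        (hxK _) (hN 0) hi1 e he).mono ?_
      have : (C₁ c : ℝ) ≤ C₀ := by exact_mod_cast hle1 c
      gcongr
    have hb2 : ∀ e : ℕ, e ∣ mdeg (x 2) (x 3) → ∀ c,
        Bd K (C₀ * D ^ 3 * (max e (mdeg (x 2) (x 3) / e) : ℕ)) (x c) := by
      intro e he c
      refine (hm2 c x hx (fun h' => hxE (Or.inr (Set.mem_iUnion.mpr ⟨c, h'⟩))) K (hxK _) (hxK _)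
        (hxK _) (hN 2) hi2 e he).mono ?_
      have : (C₂ c : ℝ) ≤ C₀ := by exact_mod_cast hle2 c
      gcongr
    have hone : ∀ (N e : ℕ), 0 < N → e ∣ N → 1 ≤ C₀ * D ^ 3 * ((max e (N / e) : ℕ) : ℝ) := by
      intro N e hN he
      have hepos : 0 < e := Nat.pos_of_dvd_of_pos he hN
      have e1 : (1 : ℝ) ≤ ((max e (N / e) : ℕ) : ℝ) := by
        exact_mod_cast (show 1 ≤ max e (N / e) from le_max_of_le_left hepos)
      exact one_le_mul_of_one_le_of_one_le (one_le_mul_of_one_le_of_one_le hC₀1R (one_le_pow₀ hD1)) e1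
    refine ⟨K, le_rfl, hfd, ?_, fun c => ?_⟩
    · have : (1 : ℝ) ≤ ((C₀ + G + 4 : ℕ) : ℝ) := by
        exact_mod_cast (show 1 ≤ C₀ + G + 4 by omega)
      exact le_mul_of_one_le_left (by linarith) this
    rw [ExcQ, not_and_or] at hne
    rcases hne with h1 | h1
    · obtain ⟨e, he, h2⟩ := Quad_num hε hk1 hkε hC₀1 hD1 hDK hp1 (fun e he =>
        hsharp K (x 2) (x 3) _ (hone _ e hp1 he) (hb1 e he 2) (hb1 e he 3) (hN 2) hi2) h1
      exact (hb1 e he c).mono (Quad_ht hD1 h2)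
    · obtain ⟨e, he, h2⟩ := Quad_num hε hk1 hkε hC₀1 hD1 hDK hp2 (fun e he =>
        hsharp K (x 0) (x 1) _ (hone _ e hp2 he) (hb2 e he 0) (hb2 e he 1) (hN 0) hi1) h1
      exact (hb2 e he c).mono (Quad_ht hD1 h2))
  refine hfin.subset ?_
  rintro x ⟨hx, ⟨h1, h2, h3⟩, h4⟩
  exact ⟨hx, h4, h1, h2, h3⟩

end Pool.Agent.LGO.SM
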