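import Mathlib
import Pool.Agent.LGO.ZV.SpY3
import Pool.Agent.LGO.SM.Quad
import Pool.Agent.LGO.SM.Main

/-!
# LGO/SM: the Zilber-Pink statement for every curve in `Y(1)ⁿ` over `ℂ`, up to exceptional points

`main_all`: `W` any irreducible curve over `ℂ` in `ℂⁿ`, all special subvarieties.
-/

namespace Pool.Agent.LGO.SM

open MvPolynomial UpperHalfPlane Pool.Agent.Hhelper14.ZP Pool.Agent.Hhelper14.ZPL Pool.Agent.LGO
  Pool.Agent.LGO.ZF Pool.Agent.LGO.ZG Pool.Agent.LGO.ZV Pool.Agent.LGO.F Pool.Agent.LGO.LK Pool.Agent.LGO.FC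
  Pool.Agent.ZPE

variable {n m : ℕ} {W : Set (Fin n → ℂ)}

private theorem All_cp {l : ℕ} {C : Set (Fin m → ℂ)} {σ : Fin l → Fin m}
    (h : IsZClosed (proj σ C)) : cp σ C = proj σ C := by
  have e : {y : Fin l → ℂ | ∃ x ∈ C, y = fun a => x (σ a)} = proj σ C := by
    ext y
    constructor
    · rintro ⟨x, hx, rfl⟩
      exact ⟨x, hx, rfl⟩
    · rintro ⟨x, hx, rfl⟩
      exact ⟨x, hx, rfl⟩
  rw [cp, e]
  exact h

/-- a curve over `Qb` in `ℂ⁴` with a constant coordinate has finitely many points with two isogenous pairs -/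
theorem gp_t2c {C : Set (Fin 4 → ℂ)} (h : GP C) (hk : KClosed C) {a₀ : Fin 4} {c₀ : ℂ}
    (h0 : ∀ x ∈ C, x a₀ = c₀) : T2 C := by
  obtain ⟨l, σ, c, hσ, hc, hnc⟩ := KC.exists_sigma C (irred_nonempty h.irr)
  have hcrv : ZV.Crv (proj σ C) := hc.crv hσ h.irr hk h.dim hnc
    (fun a b hab g hg => h.nomod (σ a) (σ b) (hσ.ne hab) g hg)
  have hG : KC.Gen C σ c := by
    refine ⟨hc, hcrv, fun k hk' => hc.alg hk (irred_nonempty h.irr) hk', fun k hk' => ?_,
      fun k l hkl hk' hl' => ?_⟩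
    · rw [ncm_iff]
      intro hcm
      obtain ⟨x, hx, hne⟩ := h.ncm k (c k) hcm
      exact hne (hc x hx k hk')
    · rintro ⟨τ, g, hg, h3, h4⟩
      obtain ⟨x, hx, hno⟩ := h.nomod k l hkl g hg
      exact hno ⟨τ, by rw [hc x hx k hk', h3], by rw [hc x hx l hl', h4]⟩
  refine hG.t2 fun j hj => ?_
  exfalso
  have h4 : 4 ≤ l := by simpa using Fintype.card_le_of_injective j hj
  have hl : l ≤ 4 := by simpa using Fintype.card_le_of_injective σ hσ
  have hl4 : l = 4 := by omega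
  subst hl4
  obtain ⟨b, hb⟩ := (Finite.injective_iff_surjective.mp hσ) a₀
  obtain ⟨x, hx, hne⟩ := hnc b c₀
  rw [hb] at hne
  exact hne (h0 x hx)

private theorem const_rel' (h : GP W) {a b : Fin n} (hab : a ≠ b) (ha : ∃ c : ℂ, ∀ x ∈ W, x a = c)
    (hb : ∃ c : ℂ, ∀ x ∈ W, x b = c) {x : Fin n → ℂ} (hx : x ∈ W) : ¬ HeckeRel (x a) (x b) := by
  intro hr
  obtain ⟨g, hg, τ, h1, h2⟩ := mr_of_rel hr
  obtain ⟨y, hy, hyn⟩ := h.nomod a b hab g hg
  obtain ⟨ca, hca⟩ := ha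
  obtain ⟨cb, hcb⟩ := hb
  refine hyn ⟨τ, ?_, ?_⟩
  · rw [hca y hy, ← hca x hx]
    exact h1
  · rw [hcb y hy, ← hcb x hx]
    exact h2

/-- four coordinates -/
theorem part2 (h : GP W) (i : Fin 4 → Fin n) (hi : Function.Injective i) (P : (Fin 4 → ℂ) → Prop)
    (hP : ZV.Crv (cp i W) → {y ∈ cp i W | Iso22 y ∧ P y}.Finite) :
    {x ∈ W | Iso22 (fun a => x (i a)) ∧ P (fun a => x (i a))}.Finite := by
  by_cases hnc : ∃ a, ∀ c : ℂ, ∃ x ∈ W, x (i a) ≠ c
  · have hC := gp_image h hi hnc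
    have hS : {y ∈ cp i W | Iso22 y ∧ P y}.Finite := by
      by_cases hk : KClosed (cp i W)
      · by_cases hall : ∀ (a : Fin 4) (c : ℂ), ∃ y ∈ cp i W, y a ≠ c
        · exact hP ⟨hC.irr, hk, hC.dim, hall, hC.nomod⟩
        · push Not at hall
          obtain ⟨a, c, hac⟩ := hall
          exact (gp_t2c hC hk hac id Function.injective_id).subset fun y hy => ⟨hy.1, hy.2.1⟩
      · exact (gp_n2 hC hk).subset fun y hy => ⟨hy.1, hy.2.1.2⟩
    exact cp_fin h.irr h.dim hnc hS fun x hx => ⟨hx.1, cp_mem hx.1, hx.2⟩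
  · push Not at hnc
    refine Set.finite_empty.subset fun x hx => ?_
    exact absurd hx.2.1.2.1 (const_rel' h (hi.ne (by decide)) (hnc 0) (hnc 1) hx.1)

/-- **all but finitely many pairs of isogenous pairs of coordinates are exceptional** -/
theorem quad_C (h : GP W) {ε : ℝ} (hε : 0 < ε) :
    {x ∈ W | ∃ i : Fin 4 → Fin n, Function.Injective i ∧ Iso22 (fun a => x (i a)) ∧
      ¬ ExcQ ε (fun a => x (i a))}.Finite := by
  refine (Set.finite_iUnion fun i : {i : Fin 4 → Fin n // Function.Injective i} =>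
    part2 h i.1 i.2 (fun y => ¬ ExcQ ε y) fun hcrv => quad4 hcrv hε).subset ?_
  rintro x ⟨hx, i, hi, h1, h2⟩
  exact Set.mem_iUnion.mpr ⟨⟨i, hi⟩, hx, h1, h2⟩

/-- an exceptional point: no coordinate is a singular modulus, there are no five isogenous coordinates, three
coordinates are isogenous or there are two isogenous pairs, and all such triples and pairs are exceptional -/
def XPt {n : ℕ} (S : Set ℕ) (ε : ℝ) (x : Fin n → ℂ) : Prop :=
  (∀ k, NCM (x k)) ∧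
  (∀ i : Fin 5 → Fin n, Function.Injective i → ¬ ∀ a b, HeckeRel (x (i a)) (x (i b))) ∧
  ((∃ i : Fin 3 → Fin n, Function.Injective i ∧ ∀ a b, HeckeRel (x (i a)) (x (i b))) ∨
    ∃ i : Fin 4 → Fin n, Function.Injective i ∧ HeckeRel (x (i 0)) (x (i 1)) ∧ HeckeRel (x (i 2)) (x (i 3))) ∧
  (∀ i : Fin 3 → Fin n, Function.Injective i → (∀ a b, HeckeRel (x (i a)) (x (i b))) →
    Exc S ε (fun a => x (i a))) ∧
  ∀ i : Fin 4 → Fin n, Function.Injective i → HeckeRel (x (i 0)) (x (i 1)) → HeckeRel (x (i 2)) (x (i 3)) →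
    ExcQ ε (fun a => x (i a))

private theorem hall3 {x : Fin n → ℂ} {i : Fin 3 → Fin n} (h3 : HeckeRel (x (i 0)) (x (i 1)))
    (h4 : HeckeRel (x (i 0)) (x (i 2))) : ∀ a b, HeckeRel (x (i a)) (x (i b)) := by
  have hall : ∀ a, HeckeRel (x (i 0)) (x (i a)) := by
    intro a
    fin_cases a
    · exact HeckeRel.refl' _
    · exact h3
    · exact h4
  exact fun a b => HeckeRel.trans' (HeckeRel.symm' (hall a)) (hall b)

private theorem inj_add {i : Fin 2 → Fin n} (hi : Function.Injective i) {k : Fin n} (h0 : k ≠ i 0)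
    (h1 : k ≠ i 1) : Function.Injective ![i 0, i 1, k] := by
  have h01 := hi.ne (show (0 : Fin 2) ≠ 1 by decide)
  intro a b hab
  fin_cases a <;> fin_cases b <;> simp_all [eq_comm]

/-- the atypical points which are not exceptional -/
theorem atyp_fin (h : GP W) : ∃ (K : ℕ) (S : Set ℕ), 0 < K ∧ Sparse K S ∧ ∀ ε : ℝ, 0 < ε →
    (Atyp W \ {x | XPt S ε x}).Finite := by
  classical
  obtain ⟨ht3, ht4⟩ := t34 h
  obtain ⟨K, S, hK, hS, hf⟩ := exc_C h
  refine ⟨K, S, hK, hS, fun ε hε => ?_⟩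
  have f1 := hf ε hε
  have f2 := quad_C h hε
  have f5 : (⋃ i : {i : Fin 5 → Fin n // Function.Injective i},
      {x ∈ W | (∀ a, NCM (x (i.1 a))) ∧ ∀ a b, HeckeRel (x (i.1 a)) (x (i.1 b))}).Finite :=
    Set.finite_iUnion fun i => five h i.2
  have f3 : (⋃ i : {i : Fin 3 → Fin n // Function.Injective i},
      {x ∈ W | NCM (x (i.1 0)) ∧ NCM (x (i.1 1)) ∧ HeckeRel (x (i.1 0)) (x (i.1 1)) ∧
        IsCMVal (x (i.1 2))}).Finite :=
    Set.finite_iUnion fun i => ht3 i.1 i.2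
  have f4 : (⋃ i : {i : Fin 2 → Fin n // Function.Injective i},
      {x ∈ W | IsCMVal (x (i.1 0)) ∧ IsCMVal (x (i.1 1))}).Finite :=
    Set.finite_iUnion fun i => ht4 i.1 i.2
  refine (f1.union (f2.union (f5.union (f3.union f4)))).subset ?_
  rintro x ⟨⟨hxV, Z, hZ, hxZ, hd⟩, hne⟩
  by_contra hcon
  simp only [Set.mem_union, not_or] at hcon
  obtain ⟨g1, g2, g5, g3, g4⟩ := hcon
  have k3 : ∀ i : Fin 3 → Fin n, Function.Injective i → ¬ (NCM (x (i 0)) ∧ NCM (x (i 1)) ∧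
      HeckeRel (x (i 0)) (x (i 1)) ∧ IsCMVal (x (i 2))) := fun i hi h' =>
    g3 (Set.mem_iUnion.mpr ⟨⟨i, hi⟩, hxV, h'⟩)
  have k4 : ∀ i : Fin 2 → Fin n, Function.Injective i → ¬ (IsCMVal (x (i 0)) ∧ IsCMVal (x (i 1))) :=
    fun i hi h' => g4 (Set.mem_iUnion.mpr ⟨⟨i, hi⟩, hxV, h'⟩)
  -- an isogenous pair without complex multiplication excludes singular moduli
  have key : ∀ i : Fin 2 → Fin n, Function.Injective i → NCM (x (i 0)) → NCM (x (i 1)) →
      HeckeRel (x (i 0)) (x (i 1)) → ∀ k, NCM (x k) := by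
    intro i hi h0 h1 hI k
    rw [ncm_iff]
    intro hcm
    by_cases hk : k = i 0 ∨ k = i 1
    · rcases hk with rfl | rfl
      · exact (ncm_iff.mp h0) hcm
      · exact (ncm_iff.mp h1) hcm
    · rw [not_or] at hk
      exact k3 ![i 0, i 1, k] (inj_add hi hk.1 hk.2) ⟨h0, h1, hI, hcm⟩
  have htyp : (∀ k, NCM (x k)) ∧
      ((∃ i : Fin 3 → Fin n, Function.Injective i ∧ ∀ a b, HeckeRel (x (i a)) (x (i b))) ∨
        ∃ i : Fin 4 → Fin n, Function.Injective i ∧ HeckeRel (x (i 0)) (x (i 1)) ∧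
          HeckeRel (x (i 2)) (x (i 3))) := by
    rcases typ hZ hd hxZ with ⟨i, hi, h3, h4, h5⟩ | ⟨i, hi, h3, h4, h5⟩ | ⟨i, hi, h'⟩ | ⟨i, hi, h'⟩
    · refine ⟨key ![i 0, i 1] ?_ (h3 0) (h3 1) h4, Or.inl ⟨i, hi, hall3 h4 h5⟩⟩
      have h01 := hi.ne (show (0 : Fin 3) ≠ 1 by decide)
      intro a b hab
      fin_cases a <;> fin_cases b <;> simp_all [eq_comm]
    · refine ⟨key ![i 0, i 1] ?_ (h3 0) (h3 1) h4, Or.inr ⟨i, hi, h4, h5⟩⟩
      have h01 := hi.ne (show (0 : Fin 4) ≠ 1 by decide)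
      intro a b hab
      fin_cases a <;> fin_cases b <;> simp_all [eq_comm]
    · exact absurd h' (k3 i hi)
    · exact absurd h' (k4 i hi)
  obtain ⟨hall, htt⟩ := htyp
  refine hne ⟨hall, fun j hj h5 => ?_, htt, fun j hj h3 => ?_, fun j hj h01 h23 => ?_⟩
  · exact g5 (Set.mem_iUnion.mpr ⟨⟨j, hj⟩, hxV, fun a => hall _, h5⟩)
  · by_contra hE
    exact g1 ⟨hxV, j, hj, ⟨fun a => hall _, h3 0 1, h3 0 2⟩, hE⟩
  · by_contra hE
    exact g2 ⟨hxV, j, hj, ⟨fun a => hall _, h01, h23⟩, hE⟩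

/-- **the Zilber-Pink statement for every curve over `ℂ` in `Y(1)ⁿ`, up to exceptional points** -/
theorem main_all (hW : Pool.Agent.Hhelper14.ZPL.IsIrredClosed W) (hdim : Pool.Agent.Hhelper14.ZPL.dim W = 1) :
    ∃ (K : ℕ) (S : Set ℕ), 0 < K ∧ Sparse K S ∧ ∀ ε : ℝ, 0 < ε →
      FinAtypicalOff W {x | XPt S ε x} := by
  by_cases hmod : ∀ a b : Fin n, a ≠ b → NoRel W a b
  · by_cases hcm : ∀ (a : Fin n) (c : ℂ), IsCMVal c → ∃ x ∈ W, x a ≠ c
    · obtain ⟨K, S, hK, hS, hf⟩ := atyp_fin ⟨hW, hdim, hmod, hcm⟩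
      exact ⟨K, S, hK, hS, fun ε hε => crit_off hW hdim (hf ε hε)⟩
    · push Not at hcm
      obtain ⟨k, c, ⟨τ, hτ, hck⟩, hc⟩ := hcm
      refine ⟨1, ∅, one_pos, sp_empty, fun ε _ => FinAtypicalOff.of_fin _
        (ZG.fin_of_sub (special_const k hτ) ?_ fun x hx => ?_)⟩
      · intro hu
        have h3 : (fun _ => jInv τ + 1) ∈ {x : Fin n → ℂ | x k = jInv τ} := by
          rw [hu]
          exact Set.mem_univ _
        have h4 : jInv τ + 1 = jInv τ := h3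
        simp at h4
      · show x k = jInv τ
        rw [hc x hx, hck]
  · push Not at hmod
    obtain ⟨a, b, hab, hn⟩ := hmod
    unfold NoRel at hn
    push Not at hn
    obtain ⟨g, hg, hx⟩ := hn
    exact ⟨1, ∅, one_pos, sp_empty, fun ε _ => FinAtypicalOff.of_fin _ (ZG.fin_of_mod hab g hg hx)⟩

/-- an exceptional point is not on a special subvariety of dimension `< n / 4` -/
theorem XPt.dim_le {S : Set ℕ} {ε : ℝ} {x : Fin n → ℂ} (h : XPt S ε x) {Z : Set (Fin n → ℂ)}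
    (hZ : Pool.Agent.Hhelper14.ZPL.IsSpecial Z) (hx : x ∈ Z) :
    (n : WithBot ℕ∞) ≤ ((4 : ℕ) : WithBot ℕ∞) * Pool.Agent.Hhelper14.ZPL.dim Z := by
  have hn : 2 ≤ n := by
    rcases h.2.2.1 with ⟨i, hi, -⟩ | ⟨i, hi, -⟩
    · have : 3 ≤ n := by simpa using Fintype.card_le_of_injective i hi
      omega
    · have : 4 ≤ n := by simpa using Fintype.card_le_of_injective i hi
      omega
  by_contra hlt
  rw [not_le] at hlt
  rcases ZV.typ_low (k := 4) (by norm_num) hn hZ hlt hx with ⟨i, hi, h'⟩ | ⟨i, hi, h'⟩ | ⟨i, hi, h'⟩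
  · exact h.2.1 i hi h'.2
  · exact (ncm_iff.mp (h.1 (i 2))) h'.2.2.2
  · exact (ncm_iff.mp (h.1 (i 0))) h'.1

end Pool.Agent.LGO.SM
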