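import Mathlib
import Pool.Agent.LGO.SM.All

/-!
# LGO/SM: exceptional points have algebraic isogenous coordinates

`main_all'`: `main_all` with the algebraicity of the isogenous triples and of the two isogenous pairs.
-/

namespace Pool.Agent.LGO.SM

open MvPolynomial UpperHalfPlane Pool.Agent.Hhelper14.ZP Pool.Agent.Hhelper14.ZPL Pool.Agent.LGO
  Pool.Agent.LGO.ZF Pool.Agent.LGO.ZG Pool.Agent.LGO.ZV Pool.Agent.LGO.F Pool.Agent.LGO.LK Pool.Agent.LGO.FC
  Pool.Agent.ZPE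

variable {n m : ℕ} {W : Set (Fin n → ℂ)}

theorem alg_crv {C : Set (Fin m → ℂ)} (h : ZV.Crv C) {a b : Fin m} (hab : a ≠ b) {y : Fin m → ℂ} (hy : y ∈ C)
    (hI : HeckeRel (y a) (y b)) (c : Fin m) : IsAlgebraic ℚ (y c) :=
  PW.alg_of_isog h.irr h.kcl h.dim hab (h.nomod a b hab) hy (heckeRel_iff.1 hI) c

theorem alg_C3 (h : GP W) :
    {x ∈ W | ∃ i : Fin 3 → Fin n, Function.Injective i ∧ Iso3 (fun a => x (i a)) ∧
      ¬ ∀ a, IsAlgebraic ℚ (x (i a))}.Finite := by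
  refine (Set.finite_iUnion fun i : {i : Fin 3 → Fin n // Function.Injective i} =>
    part1 h i.1 i.2 (fun y => ¬ ∀ a, IsAlgebraic ℚ (y a)) fun hcrv => ?_).subset ?_
  · refine Set.finite_empty.subset ?_
    rintro y ⟨hy, h3, h4⟩
    exact h4 fun c => alg_crv hcrv (show (0 : Fin 3) ≠ 1 by decide) hy h3.2.1 c
  · rintro x ⟨hx, i, hi, h1, h2⟩
    exact Set.mem_iUnion.mpr ⟨⟨i, hi⟩, hx, h1, h2⟩

theorem alg_C4 (h : GP W) :
    {x ∈ W | ∃ i : Fin 4 → Fin n, Function.Injective i ∧ Iso22 (fun a => x (i a)) ∧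
      ¬ ∀ a, IsAlgebraic ℚ (x (i a))}.Finite := by
  refine (Set.finite_iUnion fun i : {i : Fin 4 → Fin n // Function.Injective i} =>
    part2 h i.1 i.2 (fun y => ¬ ∀ a, IsAlgebraic ℚ (y a)) fun hcrv => ?_).subset ?_
  · refine Set.finite_empty.subset ?_
    rintro y ⟨hy, h3, h4⟩
    exact h4 fun c => alg_crv hcrv (show (0 : Fin 4) ≠ 1 by decide) hy h3.2.1 c
  · rintro x ⟨hx, i, hi, h1, h2⟩
    exact Set.mem_iUnion.mpr ⟨⟨i, hi⟩, hx, h1, h2⟩

/-- isogenous triples and pairs of isogenous pairs are algebraic -/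
def AlgPt {n : ℕ} (x : Fin n → ℂ) : Prop :=
  (∀ i : Fin 3 → Fin n, Function.Injective i → (∀ a b, HeckeRel (x (i a)) (x (i b))) →
    ∀ a, IsAlgebraic ℚ (x (i a))) ∧
  ∀ i : Fin 4 → Fin n, Function.Injective i → HeckeRel (x (i 0)) (x (i 1)) → HeckeRel (x (i 2)) (x (i 3)) →
    ∀ a, IsAlgebraic ℚ (x (i a))

/-- **the Zilber-Pink statement for every curve over `ℂ` in `Y(1)ⁿ`, up to exceptional points**, with the
algebraicity of the isogenous coordinates of the exceptional points -/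
theorem main_all' (hW : Pool.Agent.Hhelper14.ZPL.IsIrredClosed W) (hdim : Pool.Agent.Hhelper14.ZPL.dim W = 1) :
    ∃ (K : ℕ) (S : Set ℕ), 0 < K ∧ Sparse K S ∧ ∀ ε : ℝ, 0 < ε →
      FinAtypicalOff W {x | XPt S ε x ∧ AlgPt x} := by
  by_cases hmod : ∀ a b : Fin n, a ≠ b → NoRel W a b
  · by_cases hcm : ∀ (a : Fin n) (c : ℂ), IsCMVal c → ∃ x ∈ W, x a ≠ c
    · have hGP : GP W := ⟨hW, hdim, hmod, hcm⟩
      obtain ⟨K, S, hK, hS, hf⟩ := atyp_fin hGP
      refine ⟨K, S, hK, hS, fun ε hε => crit_off hW hdim ?_⟩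
      refine ((hf ε hε).union ((alg_C3 hGP).union (alg_C4 hGP))).subset ?_
      rintro x ⟨hx, hne⟩
      by_contra hcon
      simp only [Set.mem_union, not_or] at hcon
      obtain ⟨g1, g2, g3⟩ := hcon
      have hX : XPt S ε x := by
        by_contra h'
        exact g1 ⟨hx, h'⟩
      refine hne ⟨hX, fun i hi h3 => ?_, fun i hi h01 h23 => ?_⟩
      · by_contra hE
        exact g2 ⟨hx.1, i, hi, ⟨fun a => hX.1 _, h3 0 1, h3 0 2⟩, hE⟩
      · by_contra hE
        exact g3 ⟨hx.1, i, hi, ⟨fun a => hX.1 _, h01, h23⟩, hE⟩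
    · push Not at hcm
      obtain ⟨k, c, ⟨τ, hτ, hck⟩, hc⟩ := hcm
      refine ⟨1, ∅, one_pos, sp_empty, fun ε _ => FinAtypicalOff.of_fin _
        (ZG.fin_of_sub (special_const k hτ) ?_ fun x hx => ?_)⟩
      · intro hu
        have h3 : (fun _ => jInv τ + 1) ∈ {x : Fin n → ℂ | x k = jInv τ} := by
          rw [hu]
          exact Set.mem_univ _
        have h4 : jInv τ + 1 = jInv τ := h3
        simp at h4
      · show x k = jInv τ
        rw [hc x hx, hck]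
  · push Not at hmod
    obtain ⟨a, b, hab, hn⟩ := hmod
    unfold NoRel at hn
    push Not at hn
    obtain ⟨g, hg, hx⟩ := hn
    exact ⟨1, ∅, one_pos, sp_empty, fun ε _ => FinAtypicalOff.of_fin _ (ZG.fin_of_mod hab g hg hx)⟩

end Pool.Agent.LGO.SM
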